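import Mathlib

set_option autoImplicit false

/-! # Jacobian determinants and twisted functionals, over commutative rings -/

namespace Pool.Agent.H63.VG

variable {σ L : Type} [Fintype σ] [DecidableEq σ] [CommRing L] [Algebra ℂ L]

theorem deriv_prod (d : Derivation ℂ L L) (s : Finset σ) (g : σ → L) :
    d (∏ k ∈ s, g k) = ∑ k ∈ s, d (g k) * ∏ l ∈ s.erase k, g l := by
  induction s using Finset.induction_on with
  | empty => simp
  | insert a s ha ih =>
    rw [Finset.prod_insert ha, Derivation.leibniz, ih, Finset.sum_insert ha,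
      Finset.erase_insert ha, smul_eq_mul, smul_eq_mul, Finset.mul_sum, add_comm]
    congr 1
    · ring
    · refine Finset.sum_congr rfl fun k hk => ?_
      have hka : k ≠ a := fun h => ha (h ▸ hk)
      rw [Finset.erase_insert_of_ne (fun h => hka h.symm), Finset.prod_insert]
      · ring
      · intro h; exact ha (Finset.mem_of_mem_erase h)

theorem eq_zero_of_eq_neg {x : L} (h : x = -x) : x = 0 := by
  have h2 : (2 : ℂ) • x = 0 := by
    rw [two_smul]
    nth_rewrite 1 [h]
    exact neg_add_cancel x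
  have h3 : (2 : ℂ)⁻¹ • ((2 : ℂ) • x) = 0 := by rw [h2, smul_zero]
  rwa [smul_smul, inv_mul_cancel₀ two_ne_zero, one_smul] at h3

/-- The determinant of the matrix of derivatives is a sum of derivatives. -/
theorem det_eq_sum (θ : σ → Derivation ℂ L L)
    (hcomm : ∀ s t u, θ s (θ t u) = θ t (θ s u)) (i0 : σ) (η : σ → L) :
    Matrix.det (Matrix.of fun t k => θ t (η k)) = ∑ π : Equiv.Perm σ, θ (π i0)
      ((Equiv.Perm.sign π : ℤ) • (η i0 * ∏ k ∈ Finset.univ.erase i0, θ (π k) (η k))) := by
  classical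
  set a : Equiv.Perm σ → L := fun π =>
    (Equiv.Perm.sign π : ℤ) • (η i0 * ∏ k ∈ Finset.univ.erase i0, θ (π k) (η k)) with ha
  -- the derivative of the summand
  have h1 : ∀ π : Equiv.Perm σ, θ (π i0) (a π) =
      (Equiv.Perm.sign π : ℤ) • (∏ k, θ (π k) (η k)) +
      η i0 * ∑ k ∈ Finset.univ.erase i0, (Equiv.Perm.sign π : ℤ) • (θ (π i0) (θ (π k) (η k)) *
        ∏ l ∈ (Finset.univ.erase i0).erase k, θ (π l) (η l)) := by
    intro π
    rw [ha]
    simp only
    rw [map_zsmul, Derivation.leibniz, deriv_prod, smul_eq_mul, smul_eq_mul,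
      ← Finset.mul_prod_erase Finset.univ (fun k => θ (π k) (η k)) (Finset.mem_univ i0),
      ← Finset.smul_sum, smul_add, add_comm]
    congr 1
    · congr 1
      ring
    · rw [mul_smul_comm]
  have hZ : ∀ k ∈ Finset.univ.erase i0, ∑ π : Equiv.Perm σ,
      (Equiv.Perm.sign π : ℤ) • (θ (π i0) (θ (π k) (η k)) *
        ∏ l ∈ (Finset.univ.erase i0).erase k, θ (π l) (η l)) = 0 := by
    intro k hk
    have hki : k ≠ i0 := Finset.ne_of_mem_erase hk
    set F : Equiv.Perm σ → L := fun π => (Equiv.Perm.sign π : ℤ) • (θ (π i0) (θ (π k) (η k)) *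
        ∏ l ∈ (Finset.univ.erase i0).erase k, θ (π l) (η l)) with hF
    have h2 : ∑ π, F π = ∑ π, F (π * Equiv.swap i0 k) :=
      (Equiv.sum_comp (Equiv.mulRight (Equiv.swap i0 k)) F).symm
    have h3 : ∀ π, F (π * Equiv.swap i0 k) = - F π := by
      intro π
      rw [hF]
      simp only
      rw [Equiv.Perm.sign_mul, Equiv.Perm.sign_swap (fun h => hki h.symm)]
      simp only [Equiv.Perm.mul_apply, Equiv.swap_apply_left, Equiv.swap_apply_right]
      rw [hcomm (π k) (π i0)]
      have h4 : ∏ l ∈ (Finset.univ.erase i0).erase k, θ (π (Equiv.swap i0 k l)) (η l)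
          = ∏ l ∈ (Finset.univ.erase i0).erase k, θ (π l) (η l) := by
        refine Finset.prod_congr rfl fun l hl => ?_
        rw [Equiv.swap_apply_of_ne_of_ne
          (Finset.ne_of_mem_erase (Finset.mem_of_mem_erase hl)) (Finset.ne_of_mem_erase hl)]
      rw [h4]
      simp
    have h5 : ∑ π, F π = - ∑ π, F π := by
      conv_lhs => rw [h2]
      rw [← Finset.sum_neg_distrib]
      exact Finset.sum_congr rfl fun π _ => h3 π
    exact eq_zero_of_eq_neg h5
  rw [Finset.sum_congr rfl fun π _ => h1 π, Finset.sum_add_distrib, ← Finset.mul_sum,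
    Finset.sum_comm, Finset.sum_eq_zero hZ, mul_zero, add_zero, Matrix.det_apply]
  refine Finset.sum_congr rfl fun π _ => ?_
  simp only [Matrix.of_apply]
  rfl

variable {W : Type} [AddCommGroup W]

theorem T_det_tw (θ : σ → Derivation ℂ L L)
    (hcomm : ∀ s t u, θ s (θ t u) = θ t (θ s u)) (T : L →+ W) (Ω : σ → L)
    (hT : ∀ t u, T (θ t u + Ω t * u) = 0) (i0 : σ) (η : σ → L) :
    T (Matrix.det (Matrix.of fun t k => θ t (η k)) + Matrix.det (Matrix.updateCol
      (Matrix.of fun t k => θ t (η k)) i0 (fun t => Ω t * η i0))) = 0 := by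
  classical
  rw [det_eq_sum θ hcomm i0 η, Matrix.det_apply, ← Finset.sum_add_distrib, map_sum]
  refine Finset.sum_eq_zero fun π _ => ?_
  have h1 : (Equiv.Perm.sign π • ∏ k, Matrix.updateCol (Matrix.of fun t k => θ t (η k)) i0
      (fun t => Ω t * η i0) (π k) k) = Ω (π i0) * ((Equiv.Perm.sign π : ℤ) •
        (η i0 * ∏ k ∈ Finset.univ.erase i0, θ (π k) (η k))) := by
    rw [← Finset.mul_prod_erase Finset.univ _ (Finset.mem_univ i0), Matrix.updateCol_self,
      mul_smul_comm]
    have h2 : ∏ k ∈ Finset.univ.erase i0, Matrix.updateCol (Matrix.of fun t k => θ t (η k)) i0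
        (fun t => Ω t * η i0) (π k) k = ∏ k ∈ Finset.univ.erase i0, θ (π k) (η k) := by
      refine Finset.prod_congr rfl fun k hk => ?_
      rw [Matrix.updateCol_ne (Finset.ne_of_mem_erase hk), Matrix.of_apply]
    rw [h2, mul_assoc]
    rfl
  rw [h1]
  exact hT _ _

/-- The twisted form of the Piola identity, integrated: `g i` are the coordinates. -/
theorem T_piola (θ : σ → Derivation ℂ L L)
    (hcomm : ∀ s t u, θ s (θ t u) = θ t (θ s u)) (T : L →+ W) (Ω : σ → L)
    (hT : ∀ t u, T (θ t u + Ω t * u) = 0) (g : σ → L) (i : σ) (u : L) :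
    T (∑ t, (Matrix.of fun t k => θ t (g k)).adjugate i t * (θ t u + Ω t * u)) = 0 := by
  have h0 : ∀ c : σ → L, (∑ t, (Matrix.of fun t k => θ t (g k)).adjugate i t * c t)
      = ((Matrix.of fun t k => θ t (g k)).updateCol i c).det := by
    intro c
    rw [← Matrix.cramer_apply, Matrix.cramer_eq_adjugate_mulVec, Matrix.mulVec]
    rfl
  have h2 : (Matrix.of fun t k => θ t (Function.update g i u k))
      = (Matrix.of fun t k => θ t (g k)).updateCol i (fun t => θ t u) := by
    ext t k
    rw [Matrix.updateCol_apply, Matrix.of_apply, Function.update_apply]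
    split_ifs <;> rfl
  have h3 := T_det_tw θ hcomm T Ω hT i (Function.update g i u)
  rw [h2, Matrix.updateCol_idem, Function.update_self, ← h0, ← h0,
    ← Finset.sum_add_distrib] at h3
  rw [← h3]
  congr 1
  exact Finset.sum_congr rfl fun t _ => mul_add _ _ _

end Pool.Agent.H63.VG
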