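import Pool.Agent.H63.VG.Engine
import Pool.Agent.H628R4.TP.Defs

set_option autoImplicit false
set_option linter.unusedSectionVars false

/-! # Functional equations in terms of words -/

namespace Pool.Agent.H63.VG

open MvPolynomial Pool.Agent.H628R4.TP

variable {σ : Type}

/-- the action of the words -/
noncomputable def act : List (σ ⊕ σ) → Module.End ℂ (MvPolynomial σ ℂ)
  | [] => 1
  | Sum.inl i :: w => LinearMap.mulLeft ℂ (X i : MvPolynomial σ ℂ) * act w
  | Sum.inr i :: w => ((pderiv i : Derivation ℂ (MvPolynomial σ ℂ)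
        (MvPolynomial σ ℂ)) : MvPolynomial σ ℂ →ₗ[ℂ] MvPolynomial σ ℂ) * act w

theorem act_append (v w : List (σ ⊕ σ)) : act (v ++ w) = act v * act w := by
  induction v with
  | nil => simp [act]
  | cons a v ih =>
    cases a with
    | inl i => simp only [List.cons_append, act, ih, mul_assoc]
    | inr i => simp only [List.cons_append, act, ih, mul_assoc]

theorem weyl_span (P : Module.End ℂ (MvPolynomial σ ℂ)) (hP : P ∈ weylS σ) :
    ∃ c : List (σ ⊕ σ) →₀ ℂ, P = c.sum fun w r => r • act w := by
  have h1 : P ∈ Submodule.span ℂ (Set.range (act : List (σ ⊕ σ) → _)) := by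
    have h2 : P ∈ Subalgebra.toSubmodule (weylS σ) := hP
    rw [weylS, Algebra.adjoin_eq_span] at h2
    refine Submodule.span_mono ?_ h2
    intro x hx
    induction hx using Submonoid.closure_induction with
    | mem x hx =>
      rcases hx with ⟨i, rfl⟩ | ⟨i, rfl⟩
      · exact ⟨[Sum.inl i], by simp [act]⟩
      · exact ⟨[Sum.inr i], by simp [act]⟩
    | one => exact ⟨[], rfl⟩
    | mul x y _ _ hx hy =>
      obtain ⟨v, rfl⟩ := hx
      obtain ⟨w, rfl⟩ := hy
      exact ⟨v ++ w, act_append v w⟩
  obtain ⟨c, hc⟩ := (Finsupp.mem_span_range_iff_exists_finsupp).1 h1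
  exact ⟨c, hc.symm⟩

theorem act_pow (f : MvPolynomial σ ℂ) (s : ℕ) (w : List (σ ⊕ σ)) :
    act w (f ^ (s + 1)) * f ^ w.length = qq f (s : ℂ) w * f ^ (s + 1) := by
  induction w with
  | nil => simp [act, qq]
  | cons a w ih =>
    cases a with
    | inl i =>
      simp only [act, qq, List.length_cons, pow_succ, Module.End.mul_apply, LinearMap.mulLeft_apply]
      simp only [pow_succ] at ih
      linear_combination (X i * f) * ih
    | inr i =>
      simp only [act, qq, List.length_cons, Module.End.mul_apply]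
      set g := act w (f ^ (s + 1)) with hg
      have h1 := congrArg (pderiv i) ih
      rw [Derivation.leibniz, Derivation.leibniz, Derivation.leibniz_pow,
        Derivation.leibniz_pow] at h1
      simp only [smul_eq_mul, nsmul_eq_mul, Nat.add_sub_cancel] at h1
      have e1 : (w.length : MvPolynomial σ ℂ) * (f ^ (w.length - 1) * f) = w.length * f ^ w.length := by
        rcases Nat.eq_zero_or_pos w.length with h | h
        · rw [h]; simp
        · rw [← pow_succ]
          congr 2
          omega
      have e2 : (C ((s : ℂ) + 1 - (w.length : ℂ)) : MvPolynomial σ ℂ) = (s : MvPolynomial σ ℂ) + 1 -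
          (w.length : MvPolynomial σ ℂ) := by
        rw [map_sub, map_add, map_one, map_natCast, map_natCast]
      change pderiv i g * f ^ (w.length + 1) = _
      rw [e2, pow_succ f w.length]
      push_cast at h1
      rw [pow_succ f s] at h1 ih ⊢
      linear_combination f * h1 - g * pderiv i f * e1 - (w.length : MvPolynomial σ ℂ) * pderiv i f * ih

theorem words_nat (f : MvPolynomial σ ℂ) (hf : f ≠ 0) (b : Polynomial ℂ) (hb : IsBFunction f b) :
    ∃ (N : ℕ) (S : Finset (List (σ ⊕ σ))) (c : List (σ ⊕ σ) → Polynomial ℂ),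
      (∀ w ∈ S, w.length ≤ N) ∧ ∀ s : ℕ, C (b.eval (s : ℂ)) * f ^ N =
        ∑ w ∈ S, C ((c w).eval (s : ℂ)) * f ^ (N + 1 - w.length) * qq f (s : ℂ) w := by
  classical
  obtain ⟨P, hP⟩ := hb
  have h1 : ∀ m, ∃ c : List (σ ⊕ σ) →₀ ℂ, ((P m : weylS σ) : Module.End ℂ (MvPolynomial σ ℂ)) =
      c.sum fun w r => r • act w := fun m => weyl_span _ (P m).2
  choose c hc using h1
  set S : Finset (List (σ ⊕ σ)) := P.support.biUnion fun m => (c m).support with hS
  set N := S.sup List.length with hN
  have hSN : ∀ w ∈ S, w.length ≤ N := fun w hw => Finset.le_sup (f := List.length) hw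
  refine ⟨N, S, fun w => ∑ m ∈ P.support, Polynomial.C (c m w) * Polynomial.X ^ m, hSN, fun s => ?_⟩
  have hfs : f ^ s ≠ 0 := pow_ne_zero _ hf
  refine mul_left_cancel₀ hfs ?_
  have h2 := hP s
  have h3 : ∀ m ∈ P.support, (P m : Module.End ℂ (MvPolynomial σ ℂ)) (f ^ (s + 1)) =
      ∑ w ∈ S, c m w • act w (f ^ (s + 1)) := by
    intro m hm
    rw [hc m, Finsupp.sum, LinearMap.sum_apply]
    refine Finset.sum_subset ?_ ?_
    · exact Finset.subset_biUnion_of_mem (fun m => (c m).support) hm
    · intro w _ hw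
      rw [Finsupp.notMem_support_iff.1 hw, zero_smul]
      rfl
  have h4 : ∀ w ∈ S, act w (f ^ (s + 1)) * f ^ N =
      f ^ s * (f ^ (N + 1 - w.length) * qq f (s : ℂ) w) := by
    intro w hw
    have hwN := hSN w hw
    obtain ⟨m, hm⟩ : ∃ m, N = w.length + m := ⟨N - w.length, by omega⟩
    have e1 : N + 1 - w.length = m + 1 := by omega
    have h5 := act_pow f s w
    rw [e1, hm, pow_add f w.length m, ← mul_assoc, h5, pow_succ f s, pow_succ f m]
    ring
  calc f ^ s * (C (b.eval (s : ℂ)) * f ^ N) = (C (b.eval (s : ℂ)) * f ^ s) * f ^ N := by ring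
    _ = (∑ m ∈ P.support, ((s : ℂ) ^ m) • ∑ w ∈ S, c m w • act w (f ^ (s + 1))) * f ^ N := by
        rw [h2, Finsupp.sum]
        congr 1
        exact Finset.sum_congr rfl fun m hm => by rw [h3 m hm]
    _ = ∑ w ∈ S, (∑ m ∈ P.support, (s : ℂ) ^ m * c m w) • (act w (f ^ (s + 1)) * f ^ N) := by
        rw [Finset.sum_mul]
        simp only [Finset.smul_sum, Finset.sum_mul, smul_smul, Finset.sum_smul, smul_mul_assoc]
        exact Finset.sum_comm
    _ = f ^ s * ∑ w ∈ S, C ((∑ m ∈ P.support, Polynomial.C (c m w) *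
          Polynomial.X ^ m : Polynomial ℂ).eval (s : ℂ)) * f ^ (N + 1 - w.length) *
            qq f (s : ℂ) w := by
        rw [Finset.mul_sum]
        refine Finset.sum_congr rfl fun w hw => ?_
        rw [h4 w hw, Polynomial.eval_finsetSum, smul_eq_C_mul]
        have : ∑ m ∈ P.support, (s : ℂ) ^ m * c m w =
            ∑ m ∈ P.support, Polynomial.eval (s : ℂ) (Polynomial.C (c m w) * Polynomial.X ^ m) := by
          refine Finset.sum_congr rfl fun m _ => ?_
          rw [Polynomial.eval_mul, Polynomial.eval_C, Polynomial.eval_pow, Polynomial.eval_X,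
            mul_comm]
        rw [this]
        ring

theorem words_eq (f : MvPolynomial σ ℂ) (hf : f ≠ 0) (b : Polynomial ℂ) (hb : IsBFunction f b)
    (z : ℂ) : ∃ (N : ℕ) (S : Finset (List (σ ⊕ σ))) (c : List (σ ⊕ σ) → ℂ),
      (∀ w ∈ S, w.length ≤ N) ∧ C (b.eval z) * f ^ N =
        ∑ w ∈ S, C (c w) * f ^ (N + 1 - w.length) * qq f z w := by
  obtain ⟨N, S, c, hS, h⟩ := words_nat f hf b hb
  refine ⟨N, S, fun w => (c w).eval z, hS, ?_⟩
  set E : MvPolynomial σ (Polynomial ℂ) := C b * (map Polynomial.C f) ^ N -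
    ∑ w ∈ S, C (c w) * (map Polynomial.C f) ^ (N + 1 - w.length) *
      qq (map Polynomial.C f) Polynomial.X w with hE
  have h1 : ∀ z : ℂ, map (Polynomial.evalRingHom z) E = C (b.eval z) * f ^ N -
      ∑ w ∈ S, C ((c w).eval z) * f ^ (N + 1 - w.length) * qq f z w := by
    intro z
    have h2 : map (Polynomial.evalRingHom z) (map Polynomial.C f) = f := by
      rw [map_map]
      have : (Polynomial.evalRingHom z).comp Polynomial.C = RingHom.id ℂ := by
        ext r
        simp
      rw [this, map_id]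
    rw [hE, map_sub, map_mul, map_C, map_pow, h2, map_sum]
    congr 1
    refine Finset.sum_congr rfl fun w _ => ?_
    rw [map_mul, map_mul, map_C, map_pow, h2, map_qq, h2]
    simp
  have h2 : E = 0 := by
    refine MvPolynomial.ext _ _ fun μ => ?_
    rw [coeff_zero]
    refine Polynomial.eq_zero_of_infinite_isRoot _ ?_
    refine Set.Infinite.mono ?_ (Set.infinite_range_of_injective (Nat.cast_injective (R := ℂ)))
    rintro _ ⟨s, rfl⟩
    have h3 := h1 s
    rw [h s, sub_self] at h3
    have h4 := congrArg (coeff μ) h3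
    rw [coeff_map, coeff_zero] at h4
    exact h4
  have h3 := h1 z
  rw [h2, map_zero] at h3
  exact (sub_eq_zero.1 h3.symm)

end Pool.Agent.H63.VG
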