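import Pool.Agent.H63.VG.Main2
import Pool.Agent.H63.VG.Word

set_option autoImplicit false
set_option linter.unusedSectionVars false

/-! # Very general members of a linear system: the specialisation -/

namespace Pool.Agent.H63.VG

open MvPolynomial Pool.Agent.H628R4.TP

variable {σ ι : Type} [Fintype ι]

/-- the member of the linear system spanned by the `G μ` with the coefficients `y` -/
noncomputable def member {F : Subfield ℂ} (G : ι → MvPolynomial σ F) (y : ι → ℂ) :
    MvPolynomial σ ℂ := ∑ μ, C (y μ) * map (algebraMap F ℂ) (G μ)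

/-- the universal member -/
noncomputable def univ' {F : Subfield ℂ} (G : ι → MvPolynomial σ F) :
    MvPolynomial σ (MvPolynomial ι F) := ∑ μ, C (X μ) * map C (G μ)

variable {F : Subfield ℂ} (G : ι → MvPolynomial σ F)

theorem map_univ' {A : Type} [CommRing A] (g : MvPolynomial ι F →+* A) :
    map g (univ' G) = ∑ μ, C (g (X μ)) * map (g.comp C) (G μ) := by
  rw [univ', map_sum]
  refine Finset.sum_congr rfl fun μ _ => ?_
  rw [map_mul, map_C, map_map]

theorem member_eq (y : ι → ℂ) :
    member G y = map (aeval y : MvPolynomial ι F →ₐ[F] ℂ).toRingHom (univ' G) := by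
  rw [map_univ', member]
  refine Finset.sum_congr rfl fun μ _ => ?_
  have h1 : (aeval y : MvPolynomial ι F →ₐ[F] ℂ).toRingHom (X μ) = y μ := by
    change aeval y (X μ) = y μ
    rw [aeval_X]
  have h2 : (aeval y : MvPolynomial ι F →ₐ[F] ℂ).toRingHom.comp C = algebraMap F ℂ := by
    ext1 r
    change aeval y (C r) = algebraMap F ℂ r
    rw [aeval_C]
  rw [h1, h2]

/-- the pencil as a specialisation -/
noncomputable def spec (c0 e : ι → ℂ) : MvPolynomial ι F →+* Polynomial ℂ :=
  eval₂Hom (Polynomial.C.comp (algebraMap F ℂ)) fun μ =>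
    Polynomial.C (c0 μ) + Polynomial.C (e μ) * Polynomial.X

theorem pen_eq (c0 e : ι → ℂ) : pen (member G c0) (member G e) = map (spec c0 e) (univ' G) := by
  rw [map_univ', pen, member, member, map_sum, map_sum, Finset.mul_sum, ← Finset.sum_add_distrib]
  refine Finset.sum_congr rfl fun μ _ => ?_
  have h1 : (spec c0 e : MvPolynomial ι F →+* Polynomial ℂ) (X μ) =
      Polynomial.C (c0 μ) + Polynomial.C (e μ) * Polynomial.X := by
    rw [spec, coe_eval₂Hom, eval₂_X]
  have h2 : (spec c0 e : MvPolynomial ι F →+* Polynomial ℂ).comp C =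
      Polynomial.C.comp (algebraMap F ℂ) := by
    ext1 r
    rw [RingHom.comp_apply, spec, coe_eval₂Hom, eval₂_C]
  rw [h1, h2, map_mul, map_mul, map_C, map_C, map_map, map_add, map_mul]
  ring

theorem spec_eval (c0 e : ι → ℂ) (t : ℂ) (Q : MvPolynomial ι F) :
    (spec c0 e Q).eval t = aeval (fun μ => c0 μ + e μ * t) Q := by
  have h : (Polynomial.evalRingHom t).comp (spec c0 e) =
      (aeval (fun μ => c0 μ + e μ * t) : MvPolynomial ι F →ₐ[F] ℂ).toRingHom := by
    refine ringHom_ext (fun r => ?_) fun μ => ?_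
    · rw [RingHom.comp_apply, spec, coe_eval₂Hom, eval₂_C]
      change _ = aeval _ (C r)
      rw [aeval_C]
      simp
    · rw [RingHom.comp_apply, spec, coe_eval₂Hom, eval₂_X]
      change _ = aeval _ (X μ)
      rw [aeval_X]
      simp
  exact RingHom.congr_fun h Q

/-- a linear functional over a subfield -/
theorem exists_functional (K : Subfield ℂ) (v : ℂ) (hv : v ≠ 0) : ∃ l : ℂ →ₗ[K] K, l v = 1 := by
  have h1 : LinearMap.ker (LinearMap.toSpanSingleton K ℂ v) = ⊥ := by
    rw [LinearMap.ker_eq_bot']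
    intro r hr
    rw [LinearMap.toSpanSingleton_apply] at hr
    exact (smul_eq_zero.1 hr).resolve_right hv
  obtain ⟨l, hl⟩ := LinearMap.exists_leftInverse_of_injective _ h1
  refine ⟨l, ?_⟩
  have := LinearMap.congr_fun hl 1
  simpa using this

/-- the descent of a functional equation at a point -/
theorem descent (K : Subfield ℂ) (f : MvPolynomial σ K) (z : K) (v : ℂ) (hv : v ≠ 0) (N : ℕ)
    (S : Finset (List (σ ⊕ σ))) (c : List (σ ⊕ σ) → ℂ)
    (h : C v * (map (algebraMap K ℂ) f) ^ N =
      ∑ w ∈ S, C (c w) * (map (algebraMap K ℂ) f) ^ (N + 1 - w.length) *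
        qq (map (algebraMap K ℂ) f) z w) :
    ∃ c' : List (σ ⊕ σ) → K, f ^ N = ∑ w ∈ S, C (c' w) * f ^ (N + 1 - w.length) * qq f z w := by
  obtain ⟨l, hl⟩ := exists_functional K v hv
  refine ⟨fun w => l (c w), ?_⟩
  ext1 μ
  have h1 : l (coeff μ _) = l (coeff μ _) := congrArg (fun p => l (coeff μ p)) h
  have h2 : ∀ (r : ℂ) (p : MvPolynomial σ K), l (coeff μ (C r * map (algebraMap K ℂ) p)) =
      l r * coeff μ p := by
    intro r p
    rw [coeff_C_mul, coeff_map, mul_comm]
    have h3 : (algebraMap K ℂ) (coeff μ p) * r = (coeff μ p) • r := rfl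
    rw [h3, map_smul, smul_eq_mul, mul_comm]
  rw [← map_pow, h2, hl, one_mul] at h1
  rw [h1, coeff_sum, coeff_sum, map_sum]
  refine Finset.sum_congr rfl fun w _ => ?_
  have h3 : (z : ℂ) = algebraMap K ℂ z := rfl
  rw [← map_pow, h3, ← map_qq, mul_assoc, ← map_mul, h2, mul_assoc, coeff_C_mul]

/-- the functional equation of the very general member, with polynomial coefficients -/
theorem universal_eq (c : ι → ℂ) (hc : AlgebraicIndependent F c) (hG : ∃ μ, G μ ≠ 0)
    (b : Polynomial ℂ) (hb : IsBFunction (member G c) b) (z : F) (hbz : b.eval (z : ℂ) ≠ 0) :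
    ∃ (N : ℕ) (S : Finset (List (σ ⊕ σ))) (D : MvPolynomial ι F)
      (r : List (σ ⊕ σ) → MvPolynomial ι F), (∀ w ∈ S, w.length ≤ N) ∧ D ≠ 0 ∧
      C D * univ' G ^ N = ∑ w ∈ S, C (r w) * univ' G ^ (N + 1 - w.length) *
        qq (univ' G) (C z) w := by
  classical
  set ev : MvPolynomial ι F →+* ℂ := (aeval c : MvPolynomial ι F →ₐ[F] ℂ).toRingHom with hev
  have hinj : Function.Injective ev := hc
  have hU0 : univ' G ≠ 0 := by
    obtain ⟨μ, hμ⟩ := hG
    intro h0
    apply hμ
    -- specialise `X ν ↦ δ_{μν}`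
    have h1 := map_univ' G (eval fun ν => if ν = μ then (1 : F) else 0)
    rw [h0, map_zero, Finset.sum_eq_single μ] at h1
    · rw [eval_X, if_pos rfl, map_one, one_mul] at h1
      have h2 : ((eval fun ν => if ν = μ then (1 : F) else 0) : MvPolynomial ι F →+* F).comp C =
          RingHom.id F := by
        ext r
        simp
      rw [h2, map_id] at h1
      exact h1.symm
    · intro ν _ hν
      rw [eval_X, if_neg hν, map_zero, zero_mul]
    · intro h; exact absurd (Finset.mem_univ _) h
  have hf0 : member G c ≠ 0 := by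
    rw [member_eq]
    intro h0
    exact hU0 (map_injective ev hinj (by rw [map_zero]; exact h0))
  obtain ⟨N, S, c1, hS, h1⟩ := words_eq (member G c) hf0 b hb (z : ℂ)
  -- the field of definition
  set K : IntermediateField F ℂ := IntermediateField.adjoin F (Set.range c) with hK
  have hevK : ∀ x, ev x ∈ K.toSubfield := by
    intro x
    change ev x ∈ K
    rw [hK, IntermediateField.mem_adjoin_range_iff]
    exact ⟨x, 1, by rw [map_one, div_one]; rfl⟩
  set evK : MvPolynomial ι F →+* K.toSubfield := ev.codRestrict K.toSubfield hevK with hevKd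
  have hevKinj : Function.Injective evK := by
    intro x y hxy
    exact hinj (congrArg Subtype.val hxy)
  have hfK : map (algebraMap K.toSubfield ℂ) (map evK (univ' G)) = member G c := by
    rw [member_eq, map_map]
    rfl
  have hzK : ((evK (C z) : K.toSubfield) : ℂ) = z := by
    change aeval c (C z) = (z : ℂ)
    rw [aeval_C]
    rfl
  obtain ⟨c', hc'⟩ := descent K.toSubfield (map evK (univ' G)) (evK (C z)) (b.eval (z : ℂ)) hbz N S
    c1 (by rw [hfK, hzK]; exact h1)
  have hfrac : ∀ w, ∃ n d : MvPolynomial ι F, ev d ≠ 0 ∧ (c' w : ℂ) * ev d = ev n := by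
    intro w
    have h2 : (c' w : ℂ) ∈ K := (c' w).2
    obtain ⟨n, d, h3⟩ := (IntermediateField.mem_adjoin_range_iff F c _).1 h2
    by_cases hd : ev d = 0
    · refine ⟨0, 1, by rw [map_one]; exact one_ne_zero, ?_⟩
      have h4 : aeval c d = (0 : ℂ) := hd
      rw [h3, h4, div_zero, zero_mul, map_zero]
    · refine ⟨n, d, hd, ?_⟩
      rw [h3]
      exact div_mul_cancel₀ _ hd
  choose n d hd hnd using hfrac
  refine ⟨N, S, ∏ w ∈ S, d w, fun w => n w * ∏ w' ∈ S.erase w, d w', hS, ?_, ?_⟩
  · intro h2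
    have h3 := congrArg ev h2
    rw [map_prod, map_zero, Finset.prod_eq_zero_iff] at h3
    obtain ⟨w, _, hw⟩ := h3
    exact hd w hw
  · refine map_injective evK hevKinj ?_
    rw [map_mul, map_C, map_pow, hc', map_sum, Finset.mul_sum]
    refine Finset.sum_congr rfl fun w hw => ?_
    have h2 : evK (∏ w ∈ S, d w) * c' w = evK (n w * ∏ w' ∈ S.erase w, d w') := by
      rw [← Finset.mul_prod_erase S d hw, map_mul, map_mul]
      have h3 : evK (d w) * c' w = evK (n w) := by
        refine Subtype.ext ?_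
        change ev (d w) * (c' w : ℂ) = ev (n w)
        rw [mul_comm, hnd]
      rw [← h3]
      ring
    rw [map_mul, map_mul, map_C, map_pow, map_qq, ← h2, map_mul]
    ring

/-- **The reduction.** -/
theorem gen_main (c : ι → ℂ) (hc : AlgebraicIndependent F c) (hG : ∃ μ, G μ ≠ 0)
    (b : Polynomial ℂ) (hb : IsBFunction (member G c) b) (z : F) (c0 v : ι → ℂ)
    (hv : ∃ μ, v μ ≠ 0) (hv0 : ∑ μ, c0 μ * v μ = 0)
    (heng : ∀ e : ι → ℂ, ∑ μ, e μ * v μ = 1 → ∀ (N : ℕ) (S : Finset (List (σ ⊕ σ))),
      (∀ w ∈ S, w.length ≤ N) → ∀ (r : List (σ ⊕ σ) → Polynomial ℂ) (Q : Polynomial ℂ),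
      C Q * pen (member G c0) (member G e) ^ N = ∑ w ∈ S, C (r w) *
        pen (member G c0) (member G e) ^ (N + 1 - w.length) *
          qq (pen (member G c0) (member G e)) (Polynomial.C (z : ℂ)) w → Q = 0) :
    b.eval (z : ℂ) = 0 := by
  by_contra hbz
  obtain ⟨N, S, D, r, hS, hD, h1⟩ := universal_eq G c hc hG b hb z hbz
  -- `D` vanishes where `v` does not
  have h2 : ∀ y : ι → ℂ, ∑ μ, y μ * v μ ≠ 0 → aeval y D = (0 : ℂ) := by
    intro y hy
    set t := ∑ μ, y μ * v μ with ht
    set e : ι → ℂ := fun μ => (y μ - c0 μ) / t with he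
    have h3 : ∑ μ, e μ * v μ = 1 := by
      have h4 : ∑ μ, e μ * v μ = (∑ μ, y μ * v μ - ∑ μ, c0 μ * v μ) / t := by
        rw [← Finset.sum_sub_distrib, Finset.sum_div]
        refine Finset.sum_congr rfl fun μ _ => ?_
        rw [he]
        ring
      rw [h4, hv0, sub_zero, ← ht, div_self hy]
    have h5 := heng e h3 N S hS (fun w => spec c0 e (r w)) (spec c0 e D) (by
      have h6 := congrArg (map (spec (F := F) c0 e)) h1
      rw [map_mul, map_C, map_pow, map_sum] at h6
      rw [pen_eq, h6]
      refine Finset.sum_congr rfl fun w _ => ?_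
      rw [map_mul, map_mul, map_C, map_pow, map_qq]
      congr 2
      rw [spec, coe_eval₂Hom, eval₂_C]
      rfl)
    have h7 := congrArg (Polynomial.eval t) h5
    rw [spec_eval, Polynomial.eval_zero] at h7
    rw [← h7]
    congr 2
    funext μ
    rw [he]
    field_simp
    ring
  have h3 : map (algebraMap F ℂ) D * (∑ μ, C (v μ) * X μ) = 0 := by
    refine MvPolynomial.funext fun y => ?_
    rw [map_mul, eval_map, map_zero]
    by_cases hy : ∑ μ, y μ * v μ = 0
    · have h4 : eval y (∑ μ, C (v μ) * X μ) = 0 := by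
        rw [map_sum, ← hy]
        refine Finset.sum_congr rfl fun μ _ => ?_
        rw [map_mul, eval_C, eval_X, mul_comm]
      rw [h4, mul_zero]
    · have h4 := h2 y hy
      rw [aeval_def] at h4
      rw [h4, zero_mul]
  rcases mul_eq_zero.1 h3 with h4 | h4
  · apply hD
    refine map_injective (algebraMap F ℂ) (algebraMap F ℂ).injective ?_
    rw [h4, map_zero]
  · obtain ⟨μ, hμ⟩ := hv
    classical
    have h5 := congrArg (eval fun ν => if ν = μ then (1 : ℂ) else 0) h4
    rw [map_sum, map_zero, Finset.sum_eq_single μ] at h5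
    · rw [map_mul, eval_C, eval_X, if_pos rfl, mul_one] at h5
      exact hμ h5
    · intro ν _ hν
      rw [map_mul, eval_C, eval_X, if_neg hν, mul_zero]
    · intro h; exact absurd (Finset.mem_univ _) h

end Pool.Agent.H63.VG
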