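import Pool.Agent.H63.VG.Chart

set_option autoImplicit false
set_option linter.unusedSectionVars false

/-! # The engine in a chart: the result -/

namespace Pool.Agent.H63.VG

open PowerSeries

variable {σ : Type} [Fintype σ] [DecidableEq σ] (e : σ → ℕ)
variable (he : ∀ t, e t ≠ 0) (D : ℕ) (d : σ → ℕ) (b : σ → ℂ) (ξ : σ → MvPowerSeries σ ℂ)

/-- the pencil `f0 + t * f1` -/
noncomputable def pen (f0 f1 : MvPolynomial σ ℂ) : MvPolynomial σ (Polynomial ℂ) :=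
  MvPolynomial.map Polynomial.C f0 + MvPolynomial.C Polynomial.X * MvPolynomial.map Polynomial.C f1

theorem phi_pen (o : σ) (f0 f1 : MvPolynomial σ ℂ) (a : σ → ℕ) (h0 h1 : MvPowerSeries σ ℂ)
    (hf0 : MvPolynomial.aeval ξ f0 = (∏ t, MvPowerSeries.X t ^ a t) * h0)
    (hf1 : MvPolynomial.aeval ξ f1 = (∏ t, MvPowerSeries.X t ^ a t) * h1)
    (hh1 : MvPowerSeries.constantCoeff h1 = 1) (hb : b o = 0)
    (hd : ∀ t, t ≠ o → d t ≠ 0) (hD : ∀ t, t ≠ o → e t * d t = D)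
    (hb' : ∀ t, t ≠ o → MvPowerSeries.coeff (Finsupp.single t (d t)) h0 = b t)
    (hh : ∀ μ, MvPowerSeries.coeff μ h0 ≠ 0 →
      D < wt e μ ∨ ∃ t, t ≠ o ∧ μ = Finsupp.single t (d t)) :
    ∃ y ∈ Rp o, constantCoeff y = 0 ∧ phi e he D d b ξ (pen f0 f1) =
      X ^ (∑ t, e t * a t + D) * (C (mon (fun t => (a t : ℤ), 1)) * (1 + y)) := by
  obtain ⟨r, hr, hr'⟩ := SS_low e o he d b hb hd D hD h0 hb' hh
  obtain ⟨r1, hr1, hr1'⟩ := SS_high e o he (h1 - 1) 1 (by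
    intro μ hμ
    by_contra hlt
    have h2 : wt e μ = 0 := by omega
    have h3 : μ = 0 := by
      ext t
      rw [wt, Finset.sum_eq_zero_iff] at h2
      rcases Nat.mul_eq_zero.1 (h2 t (Finset.mem_univ t)) with h' | h'
      · exact absurd h' (he t)
      · exact h'
    apply hμ
    rw [h3, MvPowerSeries.coeff_zero_eq_constantCoeff_apply, map_sub, hh1, map_one, sub_self])
  have h4 : SS e he h1 = 1 + X * r1 := by
    rw [map_sub, map_one, pow_one] at hr1'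
    linear_combination hr1'
  refine ⟨X * (C (mon (0, -1)) * (r + C (tp d b) * r1)), ?_, ?_, ?_⟩
  · refine (Rp o).mul_mem (X_mem_Rp o) ((Rp o).mul_mem (C_mem_Rp o _ (mon_mem_Bp o _ (by simp))) ?_)
    exact (Rp o).add_mem hr ((Rp o).mul_mem (C_mem_Rp o _ (tp_mem_Bp o d b)) hr1)
  · rw [map_mul, constantCoeff_X, zero_mul]
  · have h5 : C (mon (fun t => (a t : ℤ), 1)) =
        (C (mon (fun t => (a t : ℤ), 0)) * C (mon (0, 1)) : (BB σ)⟦X⟧) := by
      rw [← map_mul, mon_mul]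
      have : ((fun t => (a t : ℤ), 0) + (0, 1) : Gam σ) = (fun t => (a t : ℤ), 1) := by
        ext t <;> simp
      rw [this]
    have h6 : (C (mon (0, 1)) * C (mon (0, -1)) : (BB σ)⟦X⟧) = 1 := by
      rw [← map_mul, mon_mul]
      have : ((0, 1) + (0, -1) : Gam σ) = 0 := by ext t <;> simp
      rw [this, mon_zero, map_one]
    have h7 : C (tp d b) = (C (mon (0, 1)) - C (∑ t, b t • mon (dl d t 0)) : (BB σ)⟦X⟧) := by
      rw [tp, map_sub]
    rw [pen, map_add, map_mul, phi_map, phi_map, phi_C, hf0, hf1, map_mul, map_mul, SS_prod,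
      hr', h4, psi, Polynomial.aeval_X, h5, pow_add]
    linear_combination (C (mon (fun t => (a t : ℤ), 0)) * X ^ (∑ t, e t * a t) * X ^ D) * h7 -
      (C (mon (fun t => (a t : ℤ), 0)) * X ^ (∑ t, e t * a t) * X ^ D * X *
        (r + C (tp d b) * r1)) * h6

/-- the twisted functional -/
noncomputable def TT (o : σ) (K : σ → ℕ) (g : σ → ℤ → ℂ) (p c : ℤ → ℂ) (ρ : (BB σ)⟦X⟧) :
    (BB σ)⟦X⟧ →+ ℂ⟦X⟧ :=
  (PL (lam o d K g p c)).comp
    (AddMonoidHom.mulRight (C (mon (Pi.single o (-(K o : ℤ)), 0)) * ρ))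

theorem TT_apply (o : σ) (K : σ → ℕ) (g : σ → ℤ → ℂ) (p c : ℤ → ℂ) (ρ u : (BB σ)⟦X⟧) :
    TT d o K g p c ρ u = PL (lam o d K g p c)
      (u * (C (mon (Pi.single o (-(K o : ℤ)), 0)) * ρ)) := rfl

theorem TT_twist (o : σ) (K a : σ → ℕ) (g : σ → ℤ → ℂ) (p c : ℤ → ℂ) (y y' ρ : (BB σ)⟦X⟧)
    (z : ℂ) (hao : (a o : ℂ) * z = -K o) (hb : b o = 0) (hd : ∀ t, t ≠ o → d t ≠ 0)
    (hy' : (1 + y) * y' = 1)
    (hρ : ∀ D' : Derivation ℂ (BB σ) (BB σ),
      (1 + y) * PD D' ρ = algebraMap ℂ (BB σ)⟦X⟧ z * (ρ * PD D' y))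
    (hg : ∀ t, t ≠ o → ∀ l, (d t : ℂ) * b t * g t (l + 1) = (d t * l + (K t + a t * z)) * g t l)
    (hc : ∀ m, (-z + m) * c (m + 1) = c m) (t : σ) (u : (BB σ)⟦X⟧) :
    TT d o K g p c ρ (PD (Th d b t) u + (algebraMap ℂ (BB σ)⟦X⟧ z *
      (PD (Th d b t) (C (mon (fun t => (a t : ℤ), 1)) * (1 + y)) *
        (C (mon (fun t => -(a t : ℤ), -1)) * y'))) * u) = 0 := by
  set V := u * (C (mon (Pi.single o (-(K o : ℤ)), 0)) * ρ) with hV
  set G0 : (BB σ)⟦X⟧ := C (mon (fun t => (a t : ℤ), 1)) with hG0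
  set H0 : (BB σ)⟦X⟧ := C (mon (fun t => -(a t : ℤ), -1)) with hH0
  set x0 : (BB σ)⟦X⟧ := C (mon (Pi.single o (-(K o : ℤ)), 0)) with hx0
  set E := Th d b t with hE
  have hGH : G0 * H0 = 1 := by
    rw [hG0, hH0, ← map_mul, mon_mul]
    have : ((fun t => (a t : ℤ), 1) + (fun t => -(a t : ℤ), -1) : Gam σ) = 0 := by
      ext t <;> simp
    rw [this, mon_zero, map_one]
  have hEG : PD E G0 = (a t : (BB σ)⟦X⟧) * G0 + C (((d t : ℂ) * b t) • mon (dl d t (-1))) * G0 := by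
    rw [hG0, PD_C, hE, Th_mon, map_add, ← map_mul, smul_mul_assoc, mon_mul, mul_comm,
      add_comm (dl d t (-1))]
    congr 1
    · have h1 : ((((fun t => (a t : ℤ), 1) : Gam σ).1 t : ℤ) : ℂ) • (mon (fun t => (a t : ℤ), 1) : BB σ)
          = (a t : BB σ) * mon (fun t => (a t : ℤ), 1) := by
        rw [Algebra.smul_def]
        simp
      rw [h1, map_mul, map_natCast, mul_comm]
    · simp
  have hEx : PD E x0 = -(if t = o then (K o : (BB σ)⟦X⟧) else 0) * x0 := by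
    rw [hx0, PD_C, hE, Th_mon]
    have h2 : (((Pi.single o (-(K o : ℤ)), 0) : Gam σ).2 : ℤ) = 0 := rfl
    rw [h2, Int.cast_zero, mul_zero, zero_smul, add_zero]
    by_cases hto : t = o
    · subst hto
      have h3 : algebraMap ℂ (BB σ) ((-(K t : ℤ) : ℤ) : ℂ) = -(K t : BB σ) := by
        rw [Int.cast_neg, Int.cast_natCast, map_neg, map_natCast]
      simp only [Pi.single_eq_same, if_true]
      rw [Algebra.smul_def, map_mul, h3, map_neg, map_natCast]
    · rw [if_neg hto]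
      simp [Pi.single_eq_of_ne hto]
  have hEρ : PD E ρ = algebraMap ℂ (BB σ)⟦X⟧ z * ρ * PD E y * y' := by
    have h1 := hρ E
    linear_combination y' * h1 - PD E ρ * hy'
  have hEV : PD E V = PD E u * (x0 * ρ) + u * (PD E x0 * ρ) + u * (x0 * PD E ρ) := by
    rw [hV, Derivation.leibniz, Derivation.leibniz]
    simp only [smul_eq_mul]
    ring
  have hEG1 : PD E (G0 * (1 + y)) = PD E G0 * (1 + y) + G0 * PD E y := by
    rw [Derivation.leibniz, map_add, Derivation.map_one_eq_zero, zero_add]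
    simp only [smul_eq_mul]
    ring
  have key : (PD E u + (algebraMap ℂ (BB σ)⟦X⟧ z * (PD E (G0 * (1 + y)) * (H0 * y'))) * u) *
      (x0 * ρ) = PD E V + ((if t = o then (K o : (BB σ)⟦X⟧) else 0) +
        algebraMap ℂ (BB σ)⟦X⟧ z * (a t : (BB σ)⟦X⟧)) * V +
        algebraMap ℂ (BB σ)⟦X⟧ z * (C (((d t : ℂ) * b t) • mon (dl d t (-1))) * V) := by
    rw [hEV, hEx, hEρ, hEG1, hEG, hV]
    linear_combination (u * x0 * ρ * algebraMap ℂ (BB σ)⟦X⟧ z *
      (((a t : (BB σ)⟦X⟧) + C (((d t : ℂ) * b t) • mon (dl d t (-1)))) * (1 + y) * y' +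
        PD E y * y')) * hGH + (u * x0 * ρ * algebraMap ℂ (BB σ)⟦X⟧ z *
      ((a t : (BB σ)⟦X⟧) + C (((d t : ℂ) * b t) • mon (dl d t (-1))))) * hy'
  rw [TT_apply, key]
  refine PL_zero _ _ fun n => ?_
  have halg : ∀ (z : ℂ) (v : (BB σ)⟦X⟧), coeff n (algebraMap ℂ (BB σ)⟦X⟧ z * v) =
      z • coeff n v := by
    intro z v
    rw [← Algebra.smul_def, PowerSeries.coeff_smul]
  have h3 : coeff n (PD E V + ((if t = o then (K o : (BB σ)⟦X⟧) else 0) +
        algebraMap ℂ (BB σ)⟦X⟧ z * (a t : (BB σ)⟦X⟧)) * V +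
        algebraMap ℂ (BB σ)⟦X⟧ z * (C (((d t : ℂ) * b t) • mon (dl d t (-1))) * V)) =
      E (coeff n V) + ((if t = o then (K o : ℂ) else 0) + z * a t) • coeff n V +
        (z * (d t * b t)) • (mon (dl d t (-1)) * coeff n V) := by
    have h4 : (if t = o then (K o : (BB σ)⟦X⟧) else 0) + algebraMap ℂ (BB σ)⟦X⟧ z * (a t : (BB σ)⟦X⟧) =
        algebraMap ℂ (BB σ)⟦X⟧ ((if t = o then (K o : ℂ) else 0) + z * a t) := by
      rw [map_add, map_mul, map_natCast]
      congr 1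
      split_ifs
      · rw [map_natCast]
      · rw [map_zero]
    rw [h4, map_add, map_add, coeff_PD, halg, halg, coeff_C_mul, smul_mul_assoc, smul_smul]
  rw [h3]
  by_cases hto : t = o
  · subst hto
    have h5 : (K t : ℂ) + z * a t = 0 := by linear_combination hao
    rw [if_pos rfl, h5, zero_smul, add_zero, hb, mul_zero, mul_zero, zero_smul, add_zero]
    exact lam_Th_o t d K g p c hb _
  · have h5 := lam_Th (A := fun t => K t + a t * z) (α := -z) o d K g p c hd hg hc hto (coeff n V)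
    have e1 : (0 : ℂ) + z * a t = K t + a t * z - K t := by ring
    have e2 : (z * (d t * b t)) • (mon (dl d t (-1)) * coeff n V) =
        -((-z * (d t * b t)) • (mon (dl d t (-1)) * coeff n V)) := by
      rw [← neg_smul, neg_mul, neg_neg]
    rw [if_neg hto, e1, e2, ← sub_eq_add_neg]
    exact h5

end Pool.Agent.H63.VG
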