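import Pool.Agent.H63.VG.Main1

set_option autoImplicit false
set_option linter.unusedSectionVars false

/-! # The engine in a chart: the result -/

namespace Pool.Agent.H63.VG

open PowerSeries

variable {σ : Type} [Fintype σ] [DecidableEq σ] (e : σ → ℕ)
variable (he : ∀ t, e t ≠ 0) (D : ℕ) (d : σ → ℕ) (b : σ → ℂ) (ξ : σ → MvPowerSeries σ ℂ)

theorem TT_X_pow (o : σ) (K : σ → ℕ) (g : σ → ℤ → ℂ) (p c : ℤ → ℂ) (ρ u : (BB σ)⟦X⟧) (m : ℕ) :
    TT d o K g p c ρ (X ^ m * u) = X ^ m * TT d o K g p c ρ u := by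
  rw [TT_apply, TT_apply, mul_assoc, PL_X_pow]

theorem TT_C (o : σ) (K : σ → ℕ) (g : σ → ℤ → ℂ) (p c : ℤ → ℂ) (ρ u : (BB σ)⟦X⟧) (z : ℂ) :
    TT d o K g p c ρ (algebraMap ℂ (BB σ)⟦X⟧ z * u) =
      algebraMap ℂ ℂ⟦X⟧ z * TT d o K g p c ρ u := by
  rw [TT_apply, TT_apply, mul_assoc, ← Algebra.smul_def, ← Algebra.smul_def]
  ext n
  rw [coeff_PL, PowerSeries.coeff_smul, PowerSeries.coeff_smul, map_smul, coeff_PL]

theorem TT_psi (o : σ) (K : σ → ℕ) (g : σ → ℤ → ℂ) (p c : ℤ → ℂ) (ρ : (BB σ)⟦X⟧)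
    (htp : ∀ v, lam o d K g p c (tp d b * v) = lam o d K g p c v) (Q : Polynomial ℂ)
    (u : (BB σ)⟦X⟧) : TT d o K g p c ρ (psi D d b Q * u) =
      Polynomial.aeval (X ^ D : ℂ⟦X⟧) Q * TT d o K g p c ρ u := by
  have h1 : ∀ u, TT d o K g p c ρ (X ^ D * C (tp d b) * u) = X ^ D * TT d o K g p c ρ u := by
    intro u
    rw [mul_assoc, TT_X_pow]
    congr 1
    rw [TT_apply, TT_apply, mul_assoc]
    ext n
    rw [coeff_PL, coeff_PL, coeff_C_mul, htp]
  induction Q using Polynomial.induction_on generalizing u with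
  | C a =>
    rw [psi, Polynomial.aeval_C, Polynomial.aeval_C, TT_C]
  | add P Q hP hQ =>
    rw [map_add, map_add, add_mul, map_add, hP, hQ, add_mul]
  | monomial n a ih =>
    have e1 : psi D d b (Polynomial.C a * Polynomial.X ^ (n + 1)) =
        psi D d b (Polynomial.C a * Polynomial.X ^ n) * (X ^ D * C (tp d b)) := by
      rw [pow_succ, ← mul_assoc, map_mul (psi D d b)]
      congr 1
      exact Polynomial.aeval_X _
    have e2 : Polynomial.aeval (X ^ D : ℂ⟦X⟧) (Polynomial.C a * Polynomial.X ^ (n + 1)) =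
        Polynomial.aeval (X ^ D : ℂ⟦X⟧) (Polynomial.C a * Polynomial.X ^ n) * X ^ D := by
      rw [pow_succ, ← mul_assoc, map_mul (Polynomial.aeval (X ^ D : ℂ⟦X⟧)) (_ * _),
        Polynomial.aeval_X]
    rw [e1, e2, mul_assoc, ih, h1, mul_assoc]

theorem aeval_X_pow_eq_zero (hD : D ≠ 0) (Q : Polynomial ℂ)
    (h : Polynomial.aeval (X ^ D : ℂ⟦X⟧) Q = 0) : Q = 0 := by
  have h1 : Polynomial.aeval (X ^ D : ℂ⟦X⟧) Q = ((Polynomial.expand ℂ D Q : Polynomial ℂ) : ℂ⟦X⟧) := by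
    rw [Polynomial.expand_eq_comp_X_pow]
    have h2 : ∀ P : Polynomial ℂ, (P : ℂ⟦X⟧) = Polynomial.aeval (X : ℂ⟦X⟧) P := by
      intro P
      induction P using Polynomial.induction_on' with
      | add p q hp hq => rw [Polynomial.coe_add, hp, hq, map_add]
      | monomial n a =>
        rw [Polynomial.coe_monomial, Polynomial.aeval_monomial, PowerSeries.algebraMap_apply]
        ext m
        rw [coeff_monomial, coeff_C_mul, coeff_X_pow]
        split_ifs <;> simp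
    rw [h2, Polynomial.aeval_comp, map_pow, Polynomial.aeval_X]
  rw [h1, ← Polynomial.coe_zero] at h
  exact (Polynomial.expand_eq_zero (Nat.pos_of_ne_zero hD)).1 (Polynomial.coe_injective ℂ h)

theorem cast_ne_aux {k a n : ℕ} (ha : a ≠ 0) {z : ℂ} (hz : z = -((k + 1 : ℕ) / (a : ℂ))) :
    -z + n ≠ 0 := by
  have h1 : (a : ℂ) ≠ 0 := Nat.cast_ne_zero.2 ha
  intro h
  rw [hz, neg_neg] at h
  have h2 : ((k + 1 : ℕ) : ℂ) + n * a = 0 := by
    field_simp at h
    linear_combination h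
  have h3 : (k + 1 : ℕ) + n * a = 0 := by exact_mod_cast h2
  omega

theorem final_step {R W : Type} [CommRing R] [AddCommGroup W]
    (φ : MvPolynomial σ (Polynomial ℂ) →+* R) (f : MvPolynomial σ (Polynomial ℂ))
    (s : Polynomial ℂ) (x G H J : R) (M : ℕ) (hf : φ f = x ^ M * G) (hGH : G * H = 1)
    (T : R →+ W) (hTx : ∀ m u, T u = 0 → T (x ^ m * u) = 0)
    (heng : ∀ w q, T (J * φ q * (φ (qq f s w) * G * H ^ w.length)) = 0)
    (N : ℕ) (S : Finset (List (σ ⊕ σ))) (hS : ∀ w ∈ S, w.length ≤ N)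
    (r : List (σ ⊕ σ) → Polynomial ℂ) (Q : Polynomial ℂ)
    (heq : MvPolynomial.C Q * f ^ N = ∑ w ∈ S, MvPolynomial.C (r w) *
      f ^ (N + 1 - w.length) * qq f s w) : T (x ^ (M * N) * (φ (MvPolynomial.C Q) * J)) = 0 := by
  have h2 := congrArg (fun v => J * (φ v * H ^ N)) heq
  simp only [map_mul, map_sum, map_pow, hf] at h2
  have h3 : J * (φ (MvPolynomial.C Q) * (x ^ M * G) ^ N * H ^ N) =
      x ^ (M * N) * (φ (MvPolynomial.C Q) * J) := by
    have : (G * H) ^ N = 1 := by rw [hGH, one_pow]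
    rw [mul_pow, ← pow_mul]
    linear_combination (J * φ (MvPolynomial.C Q) * x ^ (M * N)) * this
  have h4 : ∀ w ∈ S, φ (MvPolynomial.C (r w)) * (x ^ M * G) ^ (N + 1 - w.length) *
      φ (qq f s w) * H ^ N =
      x ^ (M * (N + 1 - w.length)) * (φ (MvPolynomial.C (r w)) *
        (φ (qq f s w) * G * H ^ w.length)) := by
    intro w hw
    have hwN := hS w hw
    obtain ⟨m, hm⟩ : ∃ m, N = w.length + m := ⟨N - w.length, by omega⟩
    have e1 : N + 1 - w.length = m + 1 := by omega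
    have : (G * H) ^ m = 1 := by rw [hGH, one_pow]
    rw [e1, hm, mul_pow, ← pow_mul, pow_add H, pow_succ G]
    linear_combination (x ^ (M * (m + 1)) * φ (MvPolynomial.C (r w)) *
        (φ (qq f s w) * G * H ^ w.length)) * this
  rw [← h3, h2, Finset.sum_mul, Finset.mul_sum, map_sum]
  refine Finset.sum_eq_zero fun w hw => ?_
  rw [h4 w hw]
  have h7 : J * (x ^ (M * (N + 1 - w.length)) * (φ (MvPolynomial.C (r w)) *
      (φ (qq f s w) * G * H ^ w.length))) =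
      x ^ (M * (N + 1 - w.length)) * (J * φ (MvPolynomial.C (r w)) *
        (φ (qq f s w) * G * H ^ w.length)) := by ring
  rw [h7]
  exact hTx _ _ (heng w _)

include he in
theorem chart_main (o : σ) (k a : σ → ℕ) (U : MvPowerSeries σ ℂ)
    (hU : MvPowerSeries.constantCoeff U ≠ 0)
    (hJ : (Matrix.of fun t i => MvPowerSeries.pderiv ℂ t (ξ i)).det =
      (∏ t, MvPowerSeries.X t ^ k t) * U)
    (f0 f1 : MvPolynomial σ ℂ) (h0 h1 : MvPowerSeries σ ℂ)
    (hf0 : MvPolynomial.aeval ξ f0 = (∏ t, MvPowerSeries.X t ^ a t) * h0)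
    (hf1 : MvPolynomial.aeval ξ f1 = (∏ t, MvPowerSeries.X t ^ a t) * h1)
    (hh1 : MvPowerSeries.constantCoeff h1 = 1) (hb : b o = 0) (hb0 : ∀ t, t ≠ o → b t ≠ 0)
    (hd : ∀ t, t ≠ o → d t ≠ 0) (hD : ∀ t, t ≠ o → e t * d t = D) (hD0 : D ≠ 0)
    (hb' : ∀ t, t ≠ o → MvPowerSeries.coeff (Finsupp.single t (d t)) h0 = b t)
    (hh : ∀ μ, MvPowerSeries.coeff μ h0 ≠ 0 →
      D < wt e μ ∨ ∃ t, t ≠ o ∧ μ = Finsupp.single t (d t))
    (hao : a o ≠ 0) (z : ℂ) (hz : z = -((k o + 1 : ℕ) / (a o : ℂ)))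
    (hA : ∀ t, t ≠ o → ∀ n : ℕ, 1 ≤ n → ((k t + 1 : ℕ) : ℂ) + a t * z ≠ d t * n)
    (hND : ∀ n : ℕ, 1 ≤ n →
      -z - ∑ t ∈ Finset.univ.erase o, (((k t + 1 : ℕ) : ℂ) + a t * z) / d t ≠ n)
    (N : ℕ) (S : Finset (List (σ ⊕ σ))) (hS : ∀ w ∈ S, w.length ≤ N)
    (r : List (σ ⊕ σ) → Polynomial ℂ) (Q : Polynomial ℂ)
    (heq : MvPolynomial.C Q * pen f0 f1 ^ N = ∑ w ∈ S, MvPolynomial.C (r w) *
      pen f0 f1 ^ (N + 1 - w.length) * qq (pen f0 f1) (Polynomial.C z) w) : Q = 0 := by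
  set K : σ → ℕ := fun t => k t + 1 with hK
  -- the functional
  have hg' : ∀ t, ∃ g : ℤ → ℂ, g 0 = 1 ∧
      (t ≠ o → ∀ l, (d t : ℂ) * b t * g (l + 1) = (d t * l + (K t + a t * z)) * g l) := by
    intro t
    by_cases hto : t = o
    · exact ⟨fun _ => 1, rfl, fun h => absurd hto h⟩
    · obtain ⟨g, hg0, hg⟩ := exists_rec (fun _ => (d t : ℂ) * b t)
        (fun l => d t * l + (K t + a t * z))
        (fun n _ => mul_ne_zero (Nat.cast_ne_zero.2 (hd t hto)) (hb0 t hto)) (fun n hn => by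
          obtain ⟨m, rfl⟩ : ∃ m : ℕ, n = -(m : ℤ) := ⟨(-n).toNat, by omega⟩
          intro h
          refine hA t hto m (by omega) ?_
          push_cast at h ⊢
          rw [hK] at h
          push_cast at h
          linear_combination h)
      exact ⟨g, hg0, fun _ => hg⟩
  choose g hg0 hg using hg'
  obtain ⟨c, hc0, hc⟩ := exists_rec (fun n => -z + n) (fun _ => 1) (fun n hn => by
    obtain ⟨m, rfl⟩ : ∃ m : ℕ, n = m := ⟨n.toNat, by omega⟩
    exact_mod_cast cast_ne_aux (n := m) hao hz) (fun _ _ => one_ne_zero)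
  set zz : ℂ := -z - ∑ t ∈ Finset.univ.erase o, ((K t : ℂ) + a t * z) / d t with hzz
  obtain ⟨p, hp0, hp⟩ := exists_rec (fun _ => 1) (fun n => zz + n) (fun _ _ => one_ne_zero)
    (fun n hn => by
      obtain ⟨m, rfl⟩ : ∃ m : ℕ, n = -(m : ℤ) := ⟨(-n).toNat, by omega⟩
      intro h
      refine hND m (by omega) ?_
      push_cast at h
      linear_combination h)
  have hc' : ∀ m, (-z + m) * c (m + 1) = c m := fun m => by rw [hc, one_mul]
  have hp' : ∀ n, p (n + 1) = (zz + n) * p n := fun n => by rw [← hp, one_mul]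
  have haoC : (a o : ℂ) ≠ 0 := Nat.cast_ne_zero.2 hao
  have haz : (a o : ℂ) * z = -K o := by
    rw [hz, hK]
    field_simp
  obtain ⟨y, hy, hy0, hyf⟩ := phi_pen e he D d b ξ o f0 f1 a h0 h1 hf0 hf1 hh1 hb hd hD hb' hh
  obtain ⟨y', hy'⟩ : ∃ y' : (BB σ)⟦X⟧, (1 + y) * y' = 1 := by
    have : IsUnit (1 + y) := by
      rw [PowerSeries.isUnit_iff_constantCoeff, map_add, map_one, hy0, add_zero]
      exact isUnit_one
    exact this.exists_right_inv
  obtain ⟨ρ, hρ1, hρ2, hρ⟩ := exists_rho (Bp o) y hy0 hy (k o + 1) (a o) hao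
  have hz' : (-(((k o + 1 : ℕ) : ℂ) / (a o : ℂ))) = z := hz.symm
  rw [hz'] at hρ
  set T := TT d o K g p c ρ with hT
  have htp : ∀ v, lam o d K g p c (tp d b * v) = lam o d K g p c v :=
    lam_tp o d K g p c (α := -z) (A := fun t => K t + a t * z) hd hb (fun t ht l => hg t ht l)
      hc' hp' hzz
  obtain ⟨G, hG⟩ : ∃ G : (BB σ)⟦X⟧, G = C (mon (fun t => (a t : ℤ), 1)) * (1 + y) := ⟨_, rfl⟩
  obtain ⟨H, hH⟩ : ∃ H : (BB σ)⟦X⟧, H = C (mon (fun t => -(a t : ℤ), -1)) * y' := ⟨_, rfl⟩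
  obtain ⟨J, hJJ⟩ : ∃ J : (BB σ)⟦X⟧, J = (Matrix.of fun t i =>
    PD (Th d b t) (phi e he D d b ξ (MvPolynomial.X i))).det := ⟨_, rfl⟩
  have hJ' : J = X ^ (∑ t, e t * (k t + 1)) *
      (C (mon (fun t => ((k t + 1 : ℕ) : ℤ), 0)) * SS e he U) := by
    rw [hJJ]; exact jac_phi e he D d b ξ k U hJ
  rw [← hG] at hyf
  have hGH : G * H = 1 := by
    have h1 : (C (mon (fun t => (a t : ℤ), 1)) * C (mon (fun t => -(a t : ℤ), -1)) :
        (BB σ)⟦X⟧) = 1 := by
      rw [← map_mul, mon_mul]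
      have : ((fun t => (a t : ℤ), 1) + (fun t => -(a t : ℤ), -1) : Gam σ) = 0 := by
        ext t <;> simp
      rw [this, mon_zero, map_one]
    rw [hG, hH]
    linear_combination ((1 + y) * y') * h1 + hy'
  have hzero : ∀ q, T (J * phi e he D d b ξ q * G) = 0 := by
    intro q
    have h1 : J * phi e he D d b ξ q * G * (C (mon (Pi.single o (-(K o : ℤ)), 0)) * ρ) =
        C (mon (fun t => ((k t + 1 : ℕ) : ℤ), 0) * mon (fun t => (a t : ℤ), 1) *
          mon (Pi.single o (-(K o : ℤ)), 0)) * (X ^ (∑ t, e t * (k t + 1)) * SS e he U *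
            phi e he D d b ξ q * (1 + y) * ρ) := by
      rw [hJ', hG, map_mul, map_mul]
      ring
    have h2 : X ^ (∑ t, e t * (k t + 1)) * SS e he U * phi e he D d b ξ q * (1 + y) * ρ ∈ Rp o := by
      refine (Rp o).mul_mem ((Rp o).mul_mem ((Rp o).mul_mem ((Rp o).mul_mem
        ((Rp o).pow_mem (X_mem_Rp o) _) (SS_mem_Rp e o he U)) (phi_mem e he D d b ξ o q))
        ((Rp o).add_mem (Rp o).one_mem hy)) hρ2
    rw [hT, TT_apply, h1]
    refine PL_zero _ _ fun n => ?_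
    rw [coeff_C_mul, mul_comm]
    refine lam_Ip o d K g p c _ (h2 n _ ?_)
    rw [mon_mul, mon_mul]
    refine Submodule.subset_span ⟨_, ?_, rfl⟩
    change (1 : ℤ) ≤ (((k o + 1 : ℕ) : ℤ) + (a o : ℤ)) + (Pi.single o (-(K o : ℤ)) : σ → ℤ) o
    rw [Pi.single_eq_same]
    have h5 := Nat.one_le_iff_ne_zero.2 hao
    have h6 : K o = k o + 1 := rfl
    omega
  have hCz : phi e he D d b ξ (MvPolynomial.C (Polynomial.C z)) = algebraMap ℂ (BB σ)⟦X⟧ z := by
    rw [phi_C, psi, Polynomial.aeval_C]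
  have hTX : ∀ m u, T u = 0 → T (X ^ m * u) = 0 := by
    intro m u hu
    rw [hT, TT_X_pow, ← hT, hu, mul_zero]
  have heng : ∀ w q, T (J * phi e he D d b ξ q *
      (phi e he D d b ξ (qq (pen f0 f1) (Polynomial.C z) w) * G * H ^ w.length)) = 0 := by
    intro w q
    rw [hJJ]
    refine engine (fun t => PD (Th d b t))
      (fun s t u => PD_comm _ _ (Th_comm d b s t) u) (phi e he D d b ξ) (phi_der e he D d b ξ)
      (pen f0 f1) (Polynomial.C z) z hCz (X ^ (∑ t, e t * a t + D)) G H hyf hGH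
      (fun t => PD_X_pow _ _) T (hTX _) (fun t u => ?_) (fun q => ?_) w q
    · rw [hG, hH]
      exact TT_twist d b o K a g p c y y' ρ z haz hb hd hy' hρ (fun t ht l => hg t ht l) hc' t u
    · rw [← hJJ]; exact hzero q
  have h5 := final_step (phi e he D d b ξ) (pen f0 f1) (Polynomial.C z) X G H J _ hyf hGH T hTX
    heng N S hS r Q heq
  rw [hT, TT_X_pow, phi_C, TT_psi D d b o K g p c ρ htp] at h5
  -- the value at `1`
  have h6 : TT d o K g p c ρ J ≠ 0 := by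
    intro h7
    rw [hJ', TT_X_pow] at h7
    have h8 := (mul_eq_zero.1 h7).resolve_left (pow_ne_zero _ X_ne_zero)
    have h9 := congrArg (coeff 0) h8
    have h10 : ((fun t => ((k t + 1 : ℕ) : ℤ), 0) + (Pi.single o (-(K o : ℤ)), 0) : Gam σ) =
        (fun t => if t = o then 0 else (K t : ℤ), 0) := by
      ext t
      · by_cases hto : t = o
        · subst hto
          simp [hK]
        · simp [hto, hK]
      · rfl
    have h11 : coeff 0 (C (mon (fun t => ((k t + 1 : ℕ) : ℤ), 0)) * SS e he U *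
        (C (mon (Pi.single o (-(K o : ℤ)), 0)) * ρ)) =
        MvPowerSeries.constantCoeff U • mon (fun t => if t = o then 0 else (K t : ℤ), 0) := by
      rw [coeff_zero_eq_constantCoeff_apply, map_mul, map_mul, map_mul, constantCoeff_SS, hρ1,
        mul_one, constantCoeff_C, constantCoeff_C, mul_right_comm, mon_mul, h10, mul_comm,
        ← Algebra.smul_def]
    rw [TT_apply, coeff_PL, map_zero, h11, map_smul, lam_mon, val_base,
      Finset.prod_congr rfl fun t _ => hg0 t, hp0, hc0] at h9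
    simp only [Finset.prod_const_one, mul_one, smul_eq_mul] at h9
    exact hU h9
  have h7 := (mul_eq_zero.1 h5).resolve_left (pow_ne_zero _ X_ne_zero)
  exact aeval_X_pow_eq_zero D hD0 Q ((mul_eq_zero.1 h7).resolve_right h6)

end Pool.Agent.H63.VG
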