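import Mathlib

set_option autoImplicit false

/-! # Two-sided recursions -/

namespace Pool.Agent.H63.VG

/-- A two-sided recursion `a n * g (n + 1) = b n * g n`, `g 0 = 1`. -/
theorem exists_rec (a b : ℤ → ℂ) (ha : ∀ n, 0 ≤ n → a n ≠ 0) (hb : ∀ n, n < 0 → b n ≠ 0) :
    ∃ g : ℤ → ℂ, g 0 = 1 ∧ ∀ n, a n * g (n + 1) = b n * g n := by
  let P : ℕ → ℂ := fun n => Nat.rec 1 (fun k x => b k / a k * x) n
  let Q : ℕ → ℂ := fun n => Nat.rec 1 (fun k x => a (-(k : ℤ) - 1) / b (-(k : ℤ) - 1) * x) n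
  have hP0 : P 0 = 1 := rfl
  have hP : ∀ n : ℕ, P (n + 1) = b n / a n * P n := fun n => rfl
  have hQ0 : Q 0 = 1 := rfl
  have hQ : ∀ n : ℕ, Q (n + 1) = a (-(n : ℤ) - 1) / b (-(n : ℤ) - 1) * Q n := fun n => rfl
  refine ⟨fun n => if 0 ≤ n then P n.toNat else Q (-n).toNat, by simp [hP0], fun n => ?_⟩
  simp only
  rcases lt_or_ge n 0 with h | h
  · obtain ⟨k, rfl⟩ : ∃ k : ℕ, n = -(k : ℤ) - 1 := ⟨(-n - 1).toNat, by omega⟩
    have hb' := hb _ h
    rw [if_neg (not_le.2 h)]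
    have e1 : (-(-(k : ℤ) - 1)).toNat = k + 1 := by omega
    rw [e1, hQ]
    rcases Nat.eq_zero_or_pos k with h0 | h0
    · subst h0
      simp only [Nat.cast_zero, neg_zero, zero_sub]
      rw [if_pos (by norm_num)]
      simp only [Int.reduceNeg, neg_add_cancel, Int.toNat_zero, hP0, hQ0]
      simp only [Nat.cast_zero, neg_zero, zero_sub] at hb'
      field_simp
    · rw [if_neg (by omega)]
      have e2 : (-(-(k : ℤ) - 1 + 1)).toNat = k := by omega
      rw [e2]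
      field_simp
  · obtain ⟨k, rfl⟩ : ∃ k : ℕ, n = k := ⟨n.toNat, by omega⟩
    have ha' := ha _ h
    rw [if_pos h, if_pos (by omega)]
    have e1 : ((k : ℤ) + 1).toNat = k + 1 := by omega
    rw [e1, hP, Int.toNat_natCast]
    field_simp

end Pool.Agent.H63.VG
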