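import Pool.Agent.H63.VG.Lau

set_option autoImplicit false
set_option linter.unusedSectionVars false

/-! # Power series over a ring with derivations and functionals -/

namespace Pool.Agent.H63.VG

open PowerSeries

section Lift

variable {B : Type} [CommRing B] [Algebra ℂ B]

/-- a derivation, coefficientwise -/
noncomputable def PD (D : Derivation ℂ B B) : Derivation ℂ B⟦X⟧ B⟦X⟧ :=
  Derivation.mk' 
    { toFun := fun u => PowerSeries.mk fun n => D (coeff n u)
      map_add' := fun u v => by ext n; simp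
      map_smul' := fun r u => by
        ext n
        rw [coeff_mk, PowerSeries.coeff_smul, Derivation.map_smul, RingHom.id_apply,
          PowerSeries.coeff_smul, coeff_mk] } (by
    intro u v
    ext n
    rw [map_add, smul_eq_mul, smul_eq_mul, mul_comm v]
    simp only [LinearMap.coe_mk, AddHom.coe_mk, coeff_mk, PowerSeries.coeff_mul, map_sum,
      Derivation.leibniz, smul_eq_mul, Finset.sum_add_distrib]
    congr 1
    exact Finset.sum_congr rfl fun x _ => mul_comm _ _)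

theorem coeff_PD (D : Derivation ℂ B B) (n : ℕ) (u : B⟦X⟧) :
    coeff n (PD D u) = D (coeff n u) := by
  change coeff n (PowerSeries.mk fun n => D (coeff n u)) = _
  rw [coeff_mk]

theorem PD_C (D : Derivation ℂ B B) (b : B) : PD D (C b) = C (D b) := by
  ext n
  rw [coeff_PD, coeff_C, coeff_C]
  split_ifs <;> simp

theorem PD_X_pow (D : Derivation ℂ B B) (N : ℕ) : PD D (X ^ N) = 0 := by
  ext n
  rw [coeff_PD, coeff_X_pow]
  split_ifs <;> simp

theorem PD_comm (D D' : Derivation ℂ B B) (h : ∀ b, D (D' b) = D' (D b)) (u : B⟦X⟧) :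
    PD D (PD D' u) = PD D' (PD D u) := by
  ext n
  rw [coeff_PD, coeff_PD, coeff_PD, coeff_PD, h]

/-- a functional, coefficientwise -/
noncomputable def PL (l : B →ₗ[ℂ] ℂ) : B⟦X⟧ →+ ℂ⟦X⟧ where
  toFun u := PowerSeries.mk fun n => l (coeff n u)
  map_zero' := by ext n; simp
  map_add' u v := by ext n; simp

theorem coeff_PL (l : B →ₗ[ℂ] ℂ) (n : ℕ) (u : B⟦X⟧) : coeff n (PL l u) = l (coeff n u) := by
  change coeff n (PowerSeries.mk fun n => l (coeff n u)) = _
  rw [coeff_mk]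

theorem PL_X_pow (l : B →ₗ[ℂ] ℂ) (N : ℕ) (u : B⟦X⟧) : PL l (X ^ N * u) = X ^ N * PL l u := by
  ext n
  rw [coeff_PL, coeff_X_pow_mul', coeff_X_pow_mul']
  split_ifs
  · rw [coeff_PL]
  · rw [map_zero]

theorem PL_zero (l : B →ₗ[ℂ] ℂ) (u : B⟦X⟧) (h : ∀ n, l (coeff n u) = 0) : PL l u = 0 := by
  ext n
  rw [coeff_PL, h, map_zero]

theorem coeff_pow_mem (P : Subalgebra ℂ B) (y : B⟦X⟧) (hyP : ∀ n, coeff n y ∈ P) (k n : ℕ) :
    coeff n (y ^ k) ∈ P := by
  induction k generalizing n with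
  | zero =>
    rw [pow_zero, coeff_one]
    split_ifs
    · exact P.one_mem
    · exact P.zero_mem
  | succ k ih =>
    rw [pow_succ, PowerSeries.coeff_mul]
    exact P.sum_mem fun x _ => P.mul_mem (ih _) (hyP _)

/-- the power `(1 + y) ^ z`, `z = -p / q` -/
theorem exists_rho (P : Subalgebra ℂ B) (y : B⟦X⟧) (hy0 : constantCoeff y = 0)
    (hyP : ∀ n, coeff n y ∈ P) (p q : ℕ) (hq : q ≠ 0) :
    ∃ ρ : B⟦X⟧, constantCoeff ρ = 1 ∧ (∀ n, coeff n ρ ∈ P) ∧
      ∀ D : Derivation ℂ B B,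
        (1 + y) * PD D ρ = algebraMap ℂ B⟦X⟧ (-(p / q : ℂ)) * (ρ * PD D y) := by
  have hs : PowerSeries.HasSubst y := PowerSeries.HasSubst.of_constantCoeff_zero' hy0
  set F : ℂ⟦X⟧ := PowerSeries.binomialSeries ℂ (-(p / q : ℚ)) with hF
  have hF1 : F ^ q * (1 + X) ^ p = 1 := by
    have h1 : ∀ n : ℕ, F ^ n = PowerSeries.binomialSeries ℂ ((n : ℚ) * (-(p / q : ℚ))) := by
      intro n
      induction n with
      | zero => simp
      | succ n ih => rw [pow_succ, ih, hF, ← binomialSeries_add]; congr 1; push_cast; ring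
    have h2 : ((1 : ℂ⟦X⟧) + X) ^ p = PowerSeries.binomialSeries ℂ (p : ℚ) := (binomialSeries_nat p).symm
    rw [h1, h2, ← binomialSeries_add]
    have h3 : (q : ℚ) * (-(p / q : ℚ)) + p = 0 := by
      have : (q : ℚ) ≠ 0 := Nat.cast_ne_zero.2 hq
      field_simp
      ring
    rw [h3, binomialSeries_zero]
  set ρ : B⟦X⟧ := PowerSeries.substAlgHom hs F with hρ
  have hρ1 : ρ ^ q * (1 + y) ^ p = 1 := by
    have h := congrArg (PowerSeries.substAlgHom (R := ℂ) hs) hF1
    rw [map_mul, map_pow, map_pow, map_add, map_one, substAlgHom_X hs] at h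
    exact h
  have hcoef : ∀ n, coeff n ρ = finsum fun d => coeff d F • coeff n (y ^ d) := by
    intro n
    rw [hρ, coe_substAlgHom]
    exact coeff_subst' hs F n
  refine ⟨ρ, ?_, fun n => ?_, fun D => ?_⟩
  · rw [← coeff_zero_eq_constantCoeff_apply, hcoef, finsum_eq_single _ 0]
    · rw [pow_zero, coeff_zero_one, hF, binomialSeries_coeff]
      simp
    · intro d hd
      rw [coeff_zero_eq_constantCoeff_apply, map_pow, hy0, zero_pow hd, smul_zero]
  · rw [hcoef]
    exact finsum_induction (· ∈ P) P.zero_mem (fun _ _ => P.add_mem) fun d =>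
      P.smul_mem (coeff_pow_mem P y hyP d n) _
  · have hu : PD D (ρ ^ q * (1 + y) ^ p) = 0 := by rw [hρ1, Derivation.map_one_eq_zero]
    rw [Derivation.leibniz, Derivation.leibniz_pow, Derivation.leibniz_pow, map_add,
      Derivation.map_one_eq_zero, zero_add] at hu
    simp only [smul_eq_mul, nsmul_eq_mul] at hu
    have h1 : (q : B⟦X⟧) * ((1 + y) * PD D ρ) = -((p : B⟦X⟧) * (ρ * PD D y)) := by
      have e1 : (q : B⟦X⟧) * (ρ ^ (q - 1) * ρ) = q * ρ ^ q := by
        rw [← pow_succ]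
        congr 2
        omega
      have e2 : (p : B⟦X⟧) * ((1 + y) ^ (p - 1) * (1 + y)) = p * (1 + y) ^ p := by
        rcases Nat.eq_zero_or_pos p with h | h
        · rw [h]; simp
        · rw [← pow_succ]
          congr 2
          omega
      linear_combination (ρ * (1 + y)) * hu - (q : B⟦X⟧) * ((1 + y) * PD D ρ) * hρ1 -
        (p : B⟦X⟧) * (ρ * PD D y) * hρ1 - (1 + y) ^ p * PD D ρ * (1 + y) * e1 -
        ρ ^ q * PD D y * ρ * e2
    have hq' : (q : ℂ) ≠ 0 := Nat.cast_ne_zero.2 hq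
    have h2 : algebraMap ℂ B⟦X⟧ (q : ℂ)⁻¹ * (q : B⟦X⟧) = 1 := by
      rw [← map_natCast (algebraMap ℂ B⟦X⟧) q, ← map_mul, inv_mul_cancel₀ hq', map_one]
    have h3 : algebraMap ℂ B⟦X⟧ (-(p / q : ℂ)) = -(algebraMap ℂ B⟦X⟧ (q : ℂ)⁻¹ * (p : B⟦X⟧)) := by
      rw [← map_natCast (algebraMap ℂ B⟦X⟧) p, ← map_mul, ← map_neg]
      congr 1
      rw [div_eq_mul_inv, mul_comm]
    rw [h3]
    linear_combination algebraMap ℂ B⟦X⟧ (q : ℂ)⁻¹ * h1 - (1 + y) * PD D ρ * h2

end Lift

end Pool.Agent.H63.VG
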