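import Pool.Agent.H63.VG.Ser

set_option autoImplicit false
set_option linter.unusedSectionVars false

/-! # The substitution `X t ↦ x t * τ ^ e t` -/

namespace Pool.Agent.H63.VG

open PowerSeries

variable {σ : Type} [Fintype σ] [DecidableEq σ] (e : σ → ℕ)

/-- the images of the variables -/
noncomputable def sv (t : σ) : (BB σ)⟦X⟧ := C (mon (Pi.single t 1, 0)) * X ^ e t

theorem sv_hasSubst (he : ∀ t, e t ≠ 0) : MvPowerSeries.HasSubst (sv e) := by
  refine MvPowerSeries.hasSubst_of_constantCoeff_zero fun t => ?_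
  change PowerSeries.constantCoeff (sv e t) = 0
  rw [sv, map_mul, map_pow, constantCoeff_X, zero_pow (he t), mul_zero]

/-- the substitution -/
noncomputable def SS (he : ∀ t, e t ≠ 0) : MvPowerSeries σ ℂ →ₐ[ℂ] (BB σ)⟦X⟧ :=
  MvPowerSeries.substAlgHom (sv_hasSubst e he)

/-- the exponent as a monomial -/
noncomputable def mm (μ : σ →₀ ℕ) : BB σ := mon (fun t => (μ t : ℤ), 0)

/-- the weight -/
def wt (μ : σ →₀ ℕ) : ℕ := ∑ t, e t * μ t

theorem prod_sv (μ : σ →₀ ℕ) : (μ.prod fun t k => sv e t ^ k) = C (mm μ) * X ^ wt e μ := by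
  have hmm : mm μ = ∏ t, (mon (Pi.single t 1, 0) : BB σ) ^ μ t := by
    have h1 : ∀ (γ : Gam σ) (n : ℕ), (mon γ : BB σ) ^ n = mon (n • γ) := by
      intro γ n
      induction n with
      | zero => simp [mon_zero]
      | succ n ih => rw [pow_succ, ih, mon_mul, succ_nsmul]
    have h2 : ∀ s : Finset σ, ∏ t ∈ s, (mon (Pi.single t 1, 0) : BB σ) ^ μ t =
        mon (∑ t ∈ s, μ t • (Pi.single t 1, 0)) := by
      intro s
      induction s using Finset.induction_on with
      | empty => simp [mon_zero]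
      | insert a s ha ih => rw [Finset.prod_insert ha, ih, h1, mon_mul, Finset.sum_insert ha]
    rw [h2, mm]
    congr 1
    ext t
    · rw [Prod.fst_sum, Finset.sum_apply, Finset.sum_eq_single t]
      · simp
      · intro s _ hs
        simp [Pi.single_eq_of_ne (Ne.symm hs)]
      · intro h; exact absurd (Finset.mem_univ _) h
    · rw [Prod.snd_sum]
      simp
  rw [Finsupp.prod_fintype _ _ (fun t => by rw [pow_zero]), hmm, wt, map_prod,
    ← Finset.prod_pow_eq_pow_sum, ← Finset.prod_mul_distrib]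
  refine Finset.prod_congr rfl fun t _ => ?_
  rw [sv, mul_pow, map_pow, pow_mul]

theorem coeff_SS (he : ∀ t, e t ≠ 0) (f : MvPowerSeries σ ℂ) (n : ℕ) :
    coeff n (SS e he f) = finsum fun μ : σ →₀ ℕ =>
      MvPowerSeries.coeff μ f • (if wt e μ = n then mm μ else 0) := by
  have h := MvPowerSeries.coeff_subst (sv_hasSubst e he) f (Finsupp.single () n)
  have h2 : MvPowerSeries.coeff (Finsupp.single () n) (MvPowerSeries.subst (sv e) f) =
      coeff n (SS e he f) := by
    rw [SS, ← MvPowerSeries.coe_substAlgHom (sv_hasSubst e he)]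
    rfl
  rw [← h2, h]
  refine finsum_congr fun μ => ?_
  congr 1
  change coeff n (μ.prod fun t k => sv e t ^ k) = _
  rw [prod_sv, coeff_C_mul, coeff_X_pow]
  by_cases hn : n = wt e μ
  · rw [if_pos hn, if_pos hn.symm, mul_one]
  · rw [if_neg hn, if_neg (Ne.symm hn), mul_zero]

theorem coeff_SS_finite (he : ∀ t, e t ≠ 0) (f : MvPowerSeries σ ℂ) (n : ℕ) :
    (Function.support fun μ : σ →₀ ℕ =>
      MvPowerSeries.coeff μ f • (if wt e μ = n then mm μ else 0)).Finite := by
  refine Set.Finite.subset (s := {μ : σ →₀ ℕ | ∀ t, μ t ≤ n}) ?_ ?_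
  · have h1 : {μ : σ →₀ ℕ | ∀ t, μ t ≤ n} ⊆ Set.Iic (Finsupp.equivFunOnFinite.symm fun _ => n) := by
      intro μ hμ t
      exact hμ t
    exact Set.Finite.subset (Set.finite_Iic _) h1
  · intro μ hμ t
    have h1 : wt e μ = n := by
      by_contra hne
      exact hμ (by simp [if_neg hne])
    rw [← h1, wt]
    refine le_trans ?_ (Finset.single_le_sum (f := fun t => e t * μ t) (fun _ _ => Nat.zero_le _)
      (Finset.mem_univ t))
    exact Nat.le_mul_of_pos_left _ (Nat.pos_of_ne_zero (he t))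

theorem constantCoeff_SS (he : ∀ t, e t ≠ 0) (f : MvPowerSeries σ ℂ) :
    constantCoeff (SS e he f) = algebraMap ℂ (BB σ) (MvPowerSeries.constantCoeff f) := by
  rw [← coeff_zero_eq_constantCoeff_apply, coeff_SS, finsum_eq_single _ 0]
  · have h1 : wt e (0 : σ →₀ ℕ) = 0 := by simp [wt]
    rw [if_pos h1, MvPowerSeries.coeff_zero_eq_constantCoeff_apply, Algebra.algebraMap_eq_smul_one]
    rfl
  · intro μ hμ
    rw [if_neg, smul_zero]
    intro h
    apply hμ
    ext t
    rw [wt, Finset.sum_eq_zero_iff] at h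
    have := h t (Finset.mem_univ t)
    rcases Nat.mul_eq_zero.1 this with h' | h'
    · exact absurd h' (he t)
    · exact h'

theorem SS_X (he : ∀ t, e t ≠ 0) (t : σ) :
    SS e he (MvPowerSeries.X t) = C (mon (Pi.single t 1, 0)) * X ^ e t := by
  rw [SS, MvPowerSeries.substAlgHom_X]
  rfl

theorem coeff_X_mul_pderiv (t : σ) (f : MvPowerSeries σ ℂ) (μ : σ →₀ ℕ) :
    MvPowerSeries.coeff μ (MvPowerSeries.X t * MvPowerSeries.pderiv ℂ t f) =
      (μ t : ℂ) * MvPowerSeries.coeff μ f := by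
  rw [MvPowerSeries.X_def, MvPowerSeries.coeff_monomial_mul]
  split_ifs with h
  · rw [one_mul, MvPowerSeries.coeff_pderiv, tsub_add_cancel_of_le h, mul_comm]
    congr 1
    have h1 : 1 ≤ μ t := by simpa using h t
    rw [Finsupp.tsub_apply, Finsupp.single_eq_same, Nat.cast_sub h1]
    push_cast
    ring
  · have h1 : μ t = 0 := by
      by_contra hne
      exact h (Finsupp.single_le_iff.2 (Nat.one_le_iff_ne_zero.2 hne))
    rw [h1, Nat.cast_zero, zero_mul]

/-- the derivations -/
theorem PD_SS (he : ∀ t, e t ≠ 0) (d : σ → ℕ) (b : σ → ℂ) (t : σ) (f : MvPowerSeries σ ℂ) :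
    PD (Th d b t) (SS e he f) = SS e he (MvPowerSeries.X t * MvPowerSeries.pderiv ℂ t f) := by
  ext1 n
  rw [coeff_PD, coeff_SS, coeff_SS]
  have h1 := AddMonoidHom.map_finsum ((Th d b t : BB σ →ₗ[ℂ] BB σ) : BB σ →+ BB σ)
    (coeff_SS_finite e he f n)
  refine h1.trans (finsum_congr fun μ => ?_)
  change Th d b t (MvPowerSeries.coeff μ f • (if wt e μ = n then mm μ else 0)) = _
  rw [Derivation.map_smul, coeff_X_mul_pderiv]
  split_ifs with h
  · have h2 : Th d b t (mm μ) = (μ t : ℂ) • mm μ := by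
      rw [mm, Th_mon]
      simp
    rw [h2, smul_smul, mul_comm]
  · simp

/-- the span of the monomials with a positive exponent of `x o` -/
noncomputable def Ip (o : σ) : Submodule ℂ (BB σ) :=
  Submodule.span ℂ {v | ∃ γ : Gam σ, 1 ≤ γ.1 o ∧ v = mon γ}

/-- the Laurent polynomials without negative exponents of `x o` -/
noncomputable def Bp (o : σ) : Subalgebra ℂ (BB σ) where
  carrier := {a | ∀ v ∈ Ip o, a * v ∈ Ip o}
  mul_mem' {a a'} h h' v hv := by
    rw [mul_assoc]
    exact h _ (h' _ hv)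
  add_mem' {a a'} h h' v hv := by
    rw [add_mul]
    exact (Ip o).add_mem (h _ hv) (h' _ hv)
  algebraMap_mem' r v hv := by
    rw [← Algebra.smul_def]
    exact (Ip o).smul_mem _ hv

theorem mon_mem_Bp (o : σ) (γ : Gam σ) (h : 0 ≤ γ.1 o) : mon γ ∈ Bp o := by
  intro v hv
  induction hv using Submodule.span_induction with
  | mem v hv =>
    obtain ⟨δ, hδ, rfl⟩ := hv
    rw [mon_mul]
    refine Submodule.subset_span ⟨γ + δ, ?_, rfl⟩
    have : (γ + δ).1 o = γ.1 o + δ.1 o := rfl
    omega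
  | zero => rw [mul_zero]; exact (Ip o).zero_mem
  | add v w _ _ h1 h2 => rw [mul_add]; exact (Ip o).add_mem h1 h2
  | smul r v _ h1 => rw [mul_smul_comm]; exact (Ip o).smul_mem _ h1

theorem lam_Ip (o : σ) (d K : σ → ℕ) (g : σ → ℤ → ℂ) (p c : ℤ → ℂ) (v : BB σ) (hv : v ∈ Ip o) :
    lam o d K g p c v = 0 := by
  induction hv using Submodule.span_induction with
  | mem v hv =>
    obtain ⟨δ, hδ, rfl⟩ := hv
    rw [lam_mon, val_o o d K g p c δ (by omega)]
  | zero => rw [map_zero]
  | add v w _ _ h1 h2 => rw [map_add, h1, h2, add_zero]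
  | smul r v _ h1 => rw [map_smul, h1, smul_zero]

theorem tp_mem_Bp (o : σ) (d : σ → ℕ) (b : σ → ℂ) : tp d b ∈ Bp o := by
  refine (Bp o).sub_mem (mon_mem_Bp o _ (by simp)) ((Bp o).sum_mem fun t _ =>
    (Bp o).smul_mem (mon_mem_Bp o _ ?_) _)
  change (0 : ℤ) ≤ (Pi.single t (d t : ℤ) : σ → ℤ) o
  rw [Pi.single_apply]
  split_ifs <;> omega

/-- the power series without negative exponents of `x o` -/
noncomputable def Rp (o : σ) : Subalgebra ℂ (BB σ)⟦X⟧ where
  carrier := {u | ∀ n, coeff n u ∈ Bp o}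
  mul_mem' {a a'} h h' n := by
    rw [PowerSeries.coeff_mul]
    exact (Bp o).sum_mem fun x _ => (Bp o).mul_mem (h _) (h' _)
  add_mem' {a a'} h h' n := by
    rw [map_add]
    exact (Bp o).add_mem (h _) (h' _)
  algebraMap_mem' r n := by
    rw [PowerSeries.algebraMap_apply, coeff_C]
    split_ifs
    · exact (Bp o).algebraMap_mem _
    · exact (Bp o).zero_mem

theorem mem_Rp (o : σ) (u : (BB σ)⟦X⟧) : u ∈ Rp o ↔ ∀ n, coeff n u ∈ Bp o := Iff.rfl

theorem C_mem_Rp (o : σ) (v : BB σ) (hv : v ∈ Bp o) : C v ∈ Rp o := by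
  intro n
  rw [coeff_C]
  split_ifs
  · exact hv
  · exact (Bp o).zero_mem

theorem X_mem_Rp (o : σ) : (X : (BB σ)⟦X⟧) ∈ Rp o := by
  intro n
  rw [coeff_X]
  split_ifs
  · exact (Bp o).one_mem
  · exact (Bp o).zero_mem

theorem SS_mem_Rp (o : σ) (he : ∀ t, e t ≠ 0) (f : MvPowerSeries σ ℂ) : SS e he f ∈ Rp o := by
  intro n
  rw [coeff_SS]
  refine finsum_induction (· ∈ Bp o) (Bp o).zero_mem (fun _ _ => (Bp o).add_mem) fun μ =>
    (Bp o).smul_mem ?_ _
  split_ifs
  · exact mon_mem_Bp o _ (by simp)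
  · exact (Bp o).zero_mem

theorem SS_high (o : σ) (he : ∀ t, e t ≠ 0) (f : MvPowerSeries σ ℂ) (N : ℕ)
    (hf : ∀ μ, MvPowerSeries.coeff μ f ≠ 0 → N ≤ wt e μ) :
    ∃ r ∈ Rp o, SS e he f = X ^ N * r := by
  have h1 : ∀ n < N, coeff n (SS e he f) = 0 := by
    intro n hn
    rw [coeff_SS]
    refine finsum_eq_zero_of_forall_eq_zero fun μ => ?_
    by_cases h : MvPowerSeries.coeff μ f = 0
    · rw [h, zero_smul]
    · rw [if_neg, smul_zero]
      intro h'
      have := hf μ h
      omega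
  obtain ⟨r, hr⟩ := X_pow_dvd_iff.2 h1
  refine ⟨r, fun n => ?_, hr⟩
  have h2 := SS_mem_Rp e o he f (n + N)
  rwa [hr, coeff_X_pow_mul] at h2

theorem SS_low (o : σ) (he : ∀ t, e t ≠ 0) (d : σ → ℕ) (b : σ → ℂ) (hb : b o = 0)
    (hd : ∀ t, t ≠ o → d t ≠ 0) (D : ℕ) (hD : ∀ t, t ≠ o → e t * d t = D)
    (h : MvPowerSeries σ ℂ)
    (hb' : ∀ t, t ≠ o → MvPowerSeries.coeff (Finsupp.single t (d t)) h = b t)
    (hh : ∀ μ, MvPowerSeries.coeff μ h ≠ 0 →
      D < wt e μ ∨ ∃ t, t ≠ o ∧ μ = Finsupp.single t (d t)) :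
    ∃ r ∈ Rp o, SS e he h = X ^ D * (C (∑ t, b t • mon (dl d t 0)) + X * r) := by
  have hinj : ∀ s t, s ≠ o → t ≠ o → Finsupp.single s (d s) = Finsupp.single t (d t) → s = t := by
    intro s t hs ht hst
    by_contra hne
    have := congrArg (fun μ : σ →₀ ℕ => μ s) hst
    simp only [Finsupp.single_eq_same, Finsupp.single_eq_of_ne hne] at this
    exact hd s hs this
  set h' : MvPowerSeries σ ℂ := h - ∑ t, b t • MvPowerSeries.X t ^ d t with hh'
  have hc : ∀ μ, MvPowerSeries.coeff μ h' ≠ 0 → D + 1 ≤ wt e μ := by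
    intro μ hμ
    have h1 : MvPowerSeries.coeff μ h' = MvPowerSeries.coeff μ h -
        ∑ t, b t * (if μ = Finsupp.single t (d t) then 1 else 0) := by
      rw [hh', map_sub, map_sum]
      congr 1
      refine Finset.sum_congr rfl fun t _ => ?_
      rw [MvPowerSeries.coeff_smul, MvPowerSeries.coeff_X_pow]
    by_cases hex : ∃ t, t ≠ o ∧ μ = Finsupp.single t (d t)
    · exfalso
      obtain ⟨t, ht, rfl⟩ := hex
      apply hμ
      rw [h1, hb' t ht, Finset.sum_eq_single t]
      · rw [if_pos rfl, mul_one, sub_self]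
      · intro s _ hs
        by_cases hso : s = o
        · rw [hso, hb, zero_mul]
        · rw [if_neg, mul_zero]
          intro h2
          exact hs (hinj t s ht hso h2).symm
      · intro h2
        exact absurd (Finset.mem_univ _) h2
    · have h2 : MvPowerSeries.coeff μ h' = MvPowerSeries.coeff μ h := by
        rw [h1, Finset.sum_eq_zero, sub_zero]
        intro t _
        by_cases hto : t = o
        · rw [hto, hb, zero_mul]
        · rw [if_neg, mul_zero]
          intro h2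
          exact hex ⟨t, hto, h2⟩
      rw [h2] at hμ
      rcases hh μ hμ with h3 | h3
      · exact h3
      · exact absurd h3 hex
  obtain ⟨r, hr, hr'⟩ := SS_high e o he h' (D + 1) hc
  refine ⟨r, hr, ?_⟩
  have h1 : h = h' + ∑ t, b t • MvPowerSeries.X t ^ d t := by rw [hh']; ring
  have h2 : ∀ t, SS e he (b t • MvPowerSeries.X t ^ d t) = X ^ D * C (b t • mon (dl d t 0)) := by
    intro t
    by_cases hto : t = o
    · rw [hto, hb, zero_smul, zero_smul, map_zero, map_zero, mul_zero]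
    · rw [map_smul, map_pow, SS_X, mul_pow, ← pow_mul, hD t hto, ← map_pow]
      have h3 : (mon (Pi.single t 1, 0) : BB σ) ^ d t = mon (dl d t 0) := by
        have h4 : ∀ (γ : Gam σ) (n : ℕ), (mon γ : BB σ) ^ n = mon (n • γ) := by
          intro γ n
          induction n with
          | zero => simp [mon_zero]
          | succ n ih => rw [pow_succ, ih, mon_mul, succ_nsmul]
        rw [h4]
        congr 1
        ext s
        · simp only [dl, Prod.smul_fst, Pi.smul_apply, Pi.single_apply]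
          split_ifs <;> simp
        · simp [dl]
      rw [h3, mul_comm, ← mul_smul_comm]
      congr 1
      ext n
      rw [PowerSeries.coeff_smul, coeff_C, coeff_C]
      split_ifs
      · rfl
      · rw [smul_zero]
  rw [h1, map_add, map_sum, hr', Finset.sum_congr rfl fun t _ => h2 t, ← Finset.mul_sum,
    ← map_sum, pow_succ]
  ring

end Pool.Agent.H63.VG
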